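import Pool.Agent.Q61.Thin.Main

/-! From descending directions to unbounded thin rays in the orthant. -/

set_option linter.unusedSectionVars false

namespace Pool.Agent.Q61.Thin

open Filter Topology

variable {ι : Type*} [Fintype ι] [DecidableEq ι]

/-- the integer lattice -/
def ZZ : AddSubgroup (ι → ℝ) where
  carrier := {x | ∀ i, ∃ n : ℤ, (n : ℝ) = x i}
  add_mem' := by
    intro a b ha hb i
    obtain ⟨p, hp⟩ := ha i
    obtain ⟨q, hq⟩ := hb i
    exact ⟨p + q, by simp [hp, hq]⟩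
  zero_mem' := fun i => ⟨0, by simp⟩
  neg_mem' := by
    intro a ha i
    obtain ⟨p, hp⟩ := ha i
    exact ⟨-p, by simp [hp]⟩

theorem mem_ZZ {x : ι → ℝ} : x ∈ (ZZ : AddSubgroup (ι → ℝ)) ↔ ∀ i, ∃ n : ℤ, (n : ℝ) = x i :=
  Iff.rfl

theorem GG_ZZ : GG Finset.univ (ZZ : AddSubgroup (ι → ℝ)) := by
  refine ⟨?_, fun x _ j hj => absurd (Finset.mem_univ j) hj, ?_⟩
  · have e : ((ZZ : AddSubgroup (ι → ℝ)) : Set (ι → ℝ)) =
        ⋂ i, (fun x : ι → ℝ => x i) ⁻¹' (Set.range ((↑) : ℤ → ℝ)) := by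
      ext x
      simp [mem_ZZ]
    rw [e]
    exact isClosed_iInter fun i =>
      Int.isClosedEmbedding_coe_real.isClosed_range.preimage (continuous_apply i)
  · intro j _
    rw [mem_ZZ]
    intro i
    by_cases h : i = j
    · subst h; exact ⟨1, by simp⟩
    · exact ⟨0, by simp [Pi.single_apply, h]⟩

/-- integer points near far away points of the ray -/
theorem approx {D y : ι → ℝ} (hD : 0 ≤ D) (hy : y ∈ lc (ZZ : AddSubgroup (ι → ℝ)) D)
    (hy0 : ∀ j, D j = 0 → 0 ≤ y j) {ε : ℝ} (hε : 0 < ε) (T : ℝ) :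
    ∃ (z : ι → ℕ) (s : ℝ), T ≤ s ∧ ‖(fun i => (z i : ℝ)) - (y + s • D)‖ < ε ∧
      ∀ j, D j = 0 → (z j : ℝ) = y j := by
  -- a threshold for positivity
  have hthr : ∀ᶠ s : ℝ in atTop, ∀ j, 0 < D j → 1 ≤ y j + s * D j := by
    rw [eventually_all]
    intro j
    by_cases hj : 0 < D j
    · have : Tendsto (fun s : ℝ => y j + s * D j) atTop atTop :=
        tendsto_atTop_add_const_left _ _ (tendsto_id.atTop_mul_const hj)
      filter_upwards [this.eventually_ge_atTop 1] with s hs _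
      exact hs
    · exact Eventually.of_forall fun s h => absurd h hj
  obtain ⟨s₀, hs₀⟩ := eventually_atTop.1 hthr
  set ε' : ℝ := min (ε / 2) (1 / 4) with hε'
  have hε'0 : 0 < ε' := lt_min (by linarith) (by norm_num)
  have hε'1 : ε' ≤ 1 / 4 := min_le_right _ _
  have hε'2 : ε' ≤ ε / 2 := min_le_left _ _
  obtain ⟨γ, hγ, t, ht⟩ := mem_lc.1 hy ε' hε'0
  obtain ⟨M, hM, hS⟩ := syndetic (GG_ZZ (ι := ι)).one (d := D)
    (fun j hj => absurd (Finset.mem_univ j) hj) hε'0
  obtain ⟨S, hS1, -, γ₂, hγ₂, hS2⟩ := hS (max T s₀ + t)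
  have hs1 : T ≤ S - t := by linarith [le_max_left T s₀]
  have hs2 : s₀ ≤ S - t := by linarith [le_max_right T s₀]
  have hsum : γ + γ₂ ∈ (ZZ : AddSubgroup (ι → ℝ)) := ZZ.add_mem hγ hγ₂
  have hdist : ‖(γ + γ₂) - (y + (S - t) • D)‖ < 2 * ε' := by
    have e : (γ + γ₂) - (y + (S - t) • D) = (γ + t • D - y) - (S • D - γ₂) := by module
    rw [e]
    calc _ ≤ ‖γ + t • D - y‖ + ‖S • D - γ₂‖ := norm_sub_le _ _
      _ < ε' + ε' := by gcongr
      _ = 2 * ε' := by ring
  have hcoord : ∀ j, |(γ + γ₂) j - (y j + (S - t) * D j)| < 2 * ε' := by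
    intro j
    refine lt_of_le_of_lt ?_ hdist
    have := norm_le_pi_norm ((γ + γ₂) - (y + (S - t) • D)) j
    simpa [Real.norm_eq_abs] using this
  choose p hp using mem_ZZ.1 hsum
  -- integrality of `y j` when `D j = 0`
  have hyint : ∀ j, D j = 0 → y j = (round (y j) : ℝ) := by
    intro j hj
    by_contra hne
    have hpos : 0 < |y j - (round (y j) : ℝ)| := abs_pos.2 (sub_ne_zero.2 hne)
    obtain ⟨γ', hγ', t', ht'⟩ := mem_lc.1 hy _ hpos
    obtain ⟨k, hk⟩ := mem_ZZ.1 hγ' j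
    have h1 := norm_le_pi_norm (γ' + t' • D - y) j
    have h2 : (γ' + t' • D - y) j = (k : ℝ) - y j := by simp [hj, hk]
    rw [h2, Real.norm_eq_abs, abs_sub_comm] at h1
    have h3 := round_le (y j) k
    linarith
  have hpy : ∀ j, D j = 0 → (p j : ℝ) = y j := by
    intro j hj
    have h1 := hcoord j
    rw [← hp j, hj, mul_zero, add_zero, hyint j hj] at h1
    have h2 : |((p j - round (y j) : ℤ) : ℝ)| < 1 := by
      push_cast
      linarith
    have h3 : |p j - round (y j)| < 1 := by exact_mod_cast h2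
    have h4 := Int.abs_lt_one_iff.1 h3
    rw [hyint j hj]
    have : p j = round (y j) := by linarith
    rw [this]
  have hp0 : ∀ j, 0 ≤ p j := by
    intro j
    rcases (hD j).eq_or_lt with h | h
    · have h1 := hy0 j h.symm
      rw [← hpy j h.symm] at h1
      exact_mod_cast h1
    · have h1 := hs₀ (S - t) hs2 j h
      have h2 := (abs_lt.1 (hcoord j)).1
      rw [← hp j] at h2
      have h3 : (0 : ℝ) < p j := by linarith
      exact_mod_cast h3.le
  have hcast : ∀ j, (((p j).toNat : ℕ) : ℝ) = (γ + γ₂) j := by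
    intro j
    rw [← hp j]
    have := Int.toNat_of_nonneg (hp0 j)
    exact_mod_cast this
  refine ⟨fun j => (p j).toNat, S - t, hs1, ?_, ?_⟩
  · have e : (fun i => (((p i).toNat : ℕ) : ℝ)) = γ + γ₂ := funext hcast
    rw [e]
    linarith
  · intro j hj
    rw [hcast j, ← hp j]
    exact hpy j hj

/-- shifting the base point of the ray into the orthant -/
theorem shift {D y : ι → ℝ} (hD : 0 ≤ D) (hy0 : ∀ j, D j = 0 → 0 ≤ y j) :
    ∃ t : ℝ, 0 ≤ y + t • D := by
  have hthr : ∀ᶠ s : ℝ in atTop, ∀ j, 0 ≤ y j + s * D j := by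
    rw [eventually_all]
    intro j
    rcases (hD j).eq_or_lt with h | h
    · refine Eventually.of_forall fun s => ?_
      simp only [Pi.zero_apply] at h
      rw [← h, mul_zero, add_zero]
      exact hy0 j h.symm
    · have : Tendsto (fun s : ℝ => y j + s * D j) atTop atTop :=
        tendsto_atTop_add_const_left _ _ (tendsto_id.atTop_mul_const h)
      exact this.eventually_ge_atTop 0
  obtain ⟨s₀, hs₀⟩ := eventually_atTop.1 hthr
  exact ⟨s₀, fun j => by simpa using hs₀ s₀ le_rfl j⟩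

/-- the thin ray conclusion in the orthant -/
def ThinO (F : Cub (ι → ℝ)) (y D : ι → ℝ) : Prop :=
  ∀ ε : ℝ, 0 < ε → ∀ B : ℝ, ∃ z : ι → ℕ,
    (∃ t : ℝ, 0 ≤ t ∧ ‖(fun i => (z i : ℝ)) - (y + t • D)‖ < ε) ∧ F.eval (fun i => (z i : ℝ)) < B

/-- one descending direction gives a thin ray -/
theorem thin_of {F : Cub (ι → ℝ)} {D y : ι → ℝ} (hD : 0 ≤ D)
    (hy : y ∈ lc (ZZ : AddSubgroup (ι → ℝ)) D) (hy0 : ∀ j, D j = 0 → 0 ≤ y j)
    (hcase : F.φ D D D < 0 ∨ (F.φ D D D = 0 ∧ F.A D y < 0) ∨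
      (F.φ D D D = 0 ∧ F.A D y = 0 ∧ F.q D y < 0 ∧
        ∀ j, D j ≠ 0 → F.φ D D (Pi.single j 1) = 0)) :
    ∃ y' : ι → ℝ, 0 ≤ y' ∧ ThinO F y' D := by
  obtain ⟨t₀, ht₀⟩ := shift hD hy0
  refine ⟨y + t₀ • D, ht₀, ?_⟩
  -- the sequence
  have hseq : ∀ n : ℕ, ∃ (z : ι → ℕ) (s : ℝ), (n : ℝ) ≤ s ∧
      ‖(fun i => (z i : ℝ)) - (y + s • D)‖ < 1 / ((n : ℝ) + 1) ∧
      ∀ j, D j = 0 → (z j : ℝ) = y j := fun n =>
    approx hD hy hy0 (by positivity) n
  choose z s hs hz hzj using hseq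
  have hst : Tendsto s atTop atTop := tendsto_atTop_mono hs tendsto_natCast_atTop_atTop
  set δ : ℕ → ι → ℝ := fun n => (fun i => (z n i : ℝ)) - (y + s n • D) with hδ
  have hδ0 : Tendsto δ atTop (𝓝 0) := by
    rw [tendsto_zero_iff_norm_tendsto_zero]
    exact squeeze_zero (fun n => norm_nonneg _) (fun n => (hz n).le)
      tendsto_one_div_add_atTop_nhds_zero_nat
  have hzeq : ∀ n, (fun i => (z n i : ℝ)) = (y + δ n) + s n • D := by
    intro n
    simp only [hδ]
    module
  have hyd : Tendsto (fun n => y + δ n) atTop (𝓝 y) := by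
    have := hδ0.const_add y
    rwa [add_zero] at this
  have hDc : Tendsto (fun _ : ℕ => D) atTop (𝓝 D) := tendsto_const_nhds
  have hAl : Tendsto (fun n => F.A D (y + δ n)) atTop (𝓝 (F.A D y)) := by
    unfold Cub.A
    exact ((tendsto_tri F.φ hDc hDc hyd).const_mul 3).add tendsto_const_nhds
  have hql : Tendsto (fun n => F.q D (y + δ n)) atTop (𝓝 (F.q D y)) := by
    unfold Cub.q
    exact (((tendsto_tri F.φ hDc hyd hyd).const_mul 3).add
      ((tendsto_bil F.ψ hDc hyd).const_mul 2)).add tendsto_const_nhds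
  have hel : Tendsto (fun n => F.eval (y + δ n)) atTop (𝓝 (F.eval y)) :=
    (F.continuous_eval.tendsto y).comp hyd
  have hsinv : Tendsto (fun n => (s n)⁻¹) atTop (𝓝 0) := tendsto_inv_atTop_zero.comp hst
  have hspos : ∀ᶠ n in atTop, 0 < s n := hst.eventually_gt_atTop 0
  have hlim : Tendsto (fun n => F.eval (fun i => (z n i : ℝ))) atTop atBot := by
    have e0 : ∀ n, F.eval (fun i => (z n i : ℝ)) = s n ^ 3 * F.φ D D D +
        s n ^ 2 * F.A D (y + δ n) + s n * F.q D (y + δ n) + F.eval (y + δ n) := by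
      intro n
      rw [hzeq n, F.eval_add_smul]
    rcases hcase with h | ⟨h3, hA⟩ | ⟨h3, hA, hq, hg⟩
    · have hb : Tendsto (fun n => F.φ D D D + (s n)⁻¹ * F.A D (y + δ n) +
          (s n)⁻¹ ^ 2 * F.q D (y + δ n) + (s n)⁻¹ ^ 3 * F.eval (y + δ n)) atTop
          (𝓝 (F.φ D D D)) := by
        have := (((tendsto_const_nhds (x := F.φ D D D)).add (hsinv.mul hAl)).add
          ((hsinv.pow 2).mul hql)).add ((hsinv.pow 3).mul hel)
        simpa using this
      have hs3 : Tendsto (fun n => s n ^ 3) atTop atTop :=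
        (tendsto_pow_atTop (by norm_num)).comp hst
      refine (hs3.atTop_mul_neg h hb).congr' ?_
      filter_upwards [hspos] with n hn
      rw [e0]
      field_simp
    · have hb : Tendsto (fun n => F.A D (y + δ n) +
          (s n)⁻¹ * F.q D (y + δ n) + (s n)⁻¹ ^ 2 * F.eval (y + δ n)) atTop
          (𝓝 (F.A D y)) := by
        have := (hAl.add (hsinv.mul hql)).add ((hsinv.pow 2).mul hel)
        simpa using this
      have hs3 : Tendsto (fun n => s n ^ 2) atTop atTop :=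
        (tendsto_pow_atTop (by norm_num)).comp hst
      refine (hs3.atTop_mul_neg hA hb).congr' ?_
      filter_upwards [hspos] with n hn
      rw [e0, h3]
      field_simp
      ring
    · have hA0 : ∀ n, F.A D (y + δ n) = 0 := by
        intro n
        rw [F.A_add, hA, lin_sum (F.φ D D) (δ n)]
        rw [Finset.sum_eq_zero, mul_zero, add_zero]
        intro j _
        by_cases hj : D j = 0
        · have : δ n j = 0 := by
            simp only [hδ, Pi.sub_apply, Pi.add_apply, Pi.smul_apply, smul_eq_mul, hj, mul_zero,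
              add_zero]
            rw [hzj n j hj, sub_self]
          rw [this, zero_mul]
        · rw [hg j hj, mul_zero]
      have hb : Tendsto (fun n => F.q D (y + δ n) + (s n)⁻¹ * F.eval (y + δ n)) atTop
          (𝓝 (F.q D y)) := by
        have := hql.add (hsinv.mul hel)
        simpa using this
      refine (hst.atTop_mul_neg hq hb).congr' ?_
      filter_upwards [hspos] with n hn
      rw [e0, h3, hA0]
      field_simp
      ring
  intro ε hε B
  have h1 := hlim.eventually_lt_atBot B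
  have h2 := hst.eventually_ge_atTop t₀
  have h3 : ∀ᶠ n : ℕ in atTop, 1 / ((n : ℝ) + 1) < ε :=
    tendsto_one_div_add_atTop_nhds_zero_nat.eventually_lt_const hε
  obtain ⟨n, hn1, hn2, hn3⟩ := (h1.and (h2.and h3)).exists
  refine ⟨z n, ⟨s n - t₀, by linarith, ?_⟩, hn1⟩
  have e : y + t₀ • D + (s n - t₀) • D = y + s n • D := by module
  rw [e]
  exact (hz n).trans hn3

/-- A cubic function unbounded below on `ℕ^ι` is unbounded below near a ray of the orthant. -/
theorem thin_orthant (F : Cub (ι → ℝ)) (hunb : ∀ B, ∃ z : ι → ℕ, F.eval (fun i => (z i : ℝ)) < B) :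
    ∃ y D : ι → ℝ, 0 ≤ y ∧ 0 ≤ D ∧ ThinO F y D := by
  have hSR : SR Finset.univ (ZZ : AddSubgroup (ι → ℝ)) F := by
    refine descent Finset.univ ZZ F GG_ZZ ?_
    intro B
    obtain ⟨z, hz⟩ := hunb B
    exact ⟨fun i => (z i : ℝ), fun i => ⟨z i, by simp⟩, fun i => by simp, hz⟩
  by_cases hneg : ∃ D : ι → ℝ, 0 ≤ D ∧ F.φ D D D < 0
  · obtain ⟨D, hD, h⟩ := hneg
    obtain ⟨y', h1, h2⟩ := thin_of (y := 0) hD (AddSubgroup.zero_mem _) (fun _ _ => le_rfl)
      (Or.inl h)
    exact ⟨y', D, h1, hD, h2⟩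
  · push Not at hneg
    obtain ⟨D, y, hD, -, hy, hy0, hcase⟩ := hSR
    have hg : F.φ D D D = 0 → ∀ j, D j ≠ 0 → F.φ D D (Pi.single j 1) = 0 := by
      intro h3
      have hnn : ∀ j, 0 ≤ F.φ D D (Pi.single j 1) := by
        intro j
        set e : ι → ℝ := Pi.single j 1 with he
        have he0 : 0 ≤ e := by
          intro i
          simp only [he, Pi.zero_apply, Pi.single_apply]
          split_ifs <;> norm_num
        have h1 : ∀ t : ℝ, 0 < t → 0 ≤ 3 * F.φ D D e + t * (3 * F.φ e e D + t * F.φ e e e) := by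
          intro t ht
          have h2 := hneg (D + t • e) (add_nonneg hD (smul_nonneg ht.le he0))
          rw [F.φ_lin, h3] at h2
          have h4 : 0 + 3 * t * F.φ D D e + 3 * t ^ 2 * F.φ e e D + t ^ 3 * F.φ e e e =
            t * (3 * F.φ D D e + t * (3 * F.φ e e D + t * F.φ e e e)) := by ring
          rw [h4] at h2
          exact nonneg_of_mul_nonneg_right h2 ht
        have h5 : Tendsto (fun t : ℝ => 3 * F.φ D D e + t * (3 * F.φ e e D + t * F.φ e e e))
            (𝓝[>] 0) (𝓝 (3 * F.φ D D e + 0 * (3 * F.φ e e D + 0 * F.φ e e e))) := by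
          refine Tendsto.mono_left (Continuous.tendsto ?_ 0) nhdsWithin_le_nhds
          fun_prop
        have h6 := ge_of_tendsto h5 (by
          filter_upwards [self_mem_nhdsWithin] with t ht
          exact h1 t ht)
        linarith
      intro j hj
      have h1 := lin_sum (F.φ D D) D
      rw [h3] at h1
      have h2 : ∀ i ∈ Finset.univ, 0 ≤ D i * F.φ D D (Pi.single i 1) :=
        fun i _ => mul_nonneg (hD i) (hnn i)
      have h3 := (Finset.sum_eq_zero_iff_of_nonneg h2).1 h1.symm j (Finset.mem_univ _)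
      exact (mul_eq_zero.1 h3).resolve_left hj
    have hcase' : F.φ D D D < 0 ∨ (F.φ D D D = 0 ∧ F.A D y < 0) ∨
      (F.φ D D D = 0 ∧ F.A D y = 0 ∧ F.q D y < 0 ∧
        ∀ j, D j ≠ 0 → F.φ D D (Pi.single j 1) = 0) := by
      rcases hcase with h | h | ⟨h1, h2, h3⟩
      · exact Or.inl h
      · exact Or.inr (Or.inl h)
      · exact Or.inr (Or.inr ⟨h1, h2, h3, hg h1⟩)
    obtain ⟨y', h1, h2⟩ := thin_of hD hy hy0 hcase'
    exact ⟨y', D, h1, hD, h2⟩

end Pool.Agent.Q61.Thin
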