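import Pool.Agent.Q61.Thin.Grp

/-! The descent theorem for cubic functions on a closed subgroup inside the orthant. -/

set_option linter.unusedSectionVars false

namespace Pool.Agent.Q61.Thin

open Filter Topology

variable {ι : Type*} [Fintype ι] [DecidableEq ι]

/-- admissible groups supported on `J` -/
structure GG (J : Finset ι) (Γ : AddSubgroup (ι → ℝ)) : Prop where
  closed : IsClosed (Γ : Set (ι → ℝ))
  supp : ∀ x ∈ Γ, ∀ j, j ∉ J → x j = 0
  one : ∀ j ∈ J, Pi.single j (1 : ℝ) ∈ Γ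

/-- there is a descending direction -/
def SR (J : Finset ι) (Γ : AddSubgroup (ι → ℝ)) (F : Cub (ι → ℝ)) : Prop :=
  ∃ D y : ι → ℝ, 0 ≤ D ∧ (∀ j, j ∉ J → D j = 0) ∧ y ∈ lc Γ D ∧ (∀ j, D j = 0 → 0 ≤ y j) ∧
    (F.φ D D D < 0 ∨ (F.φ D D D = 0 ∧ F.A D y < 0) ∨
      (F.φ D D D = 0 ∧ F.A D y = 0 ∧ F.q D y < 0))

theorem SR.mono {J J' : Finset ι} {Γ Γ' : AddSubgroup (ι → ℝ)} {F : Cub (ι → ℝ)}
    (h : SR J Γ F) (hJ : J ⊆ J') (hΓ : Γ ≤ Γ') : SR J' Γ' F := by
  obtain ⟨D, y, h0, hs, hy, hy0, h⟩ := h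
  exact ⟨D, y, h0, fun j hj => hs j (fun hj' => hj (hJ hj')), lc_mono hΓ D hy, hy0, h⟩

section facts

variable {J : Finset ι} {Γ : AddSubgroup (ι → ℝ)} {F : Cub (ι → ℝ)}

theorem tri_nonneg (hn : ¬ SR J Γ F) {D : ι → ℝ} (h0 : 0 ≤ D) (hs : ∀ j, j ∉ J → D j = 0) :
    0 ≤ F.φ D D D := by
  by_contra h
  exact hn ⟨D, 0, h0, hs, AddSubgroup.zero_mem _, fun _ _ => le_rfl, Or.inl (not_le.1 h)⟩

theorem A_nonneg (hn : ¬ SR J Γ F) {D : ι → ℝ} (h0 : 0 ≤ D) (hs : ∀ j, j ∉ J → D j = 0)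
    (h3 : F.φ D D D = 0) {y : ι → ℝ} (hy : y ∈ lc Γ D) (hy0 : ∀ j, D j = 0 → 0 ≤ y j) :
    0 ≤ F.A D y := by
  by_contra h
  exact hn ⟨D, y, h0, hs, hy, hy0, Or.inr (Or.inl ⟨h3, not_le.1 h⟩)⟩

theorem q_nonneg (hn : ¬ SR J Γ F) {D : ι → ℝ} (h0 : 0 ≤ D) (hs : ∀ j, j ∉ J → D j = 0)
    (h3 : F.φ D D D = 0) {y : ι → ℝ} (hy : y ∈ lc Γ D) (hy0 : ∀ j, D j = 0 → 0 ≤ y j)
    (hA : F.A D y = 0) : 0 ≤ F.q D y := by
  by_contra h
  exact hn ⟨D, y, h0, hs, hy, hy0, Or.inr (Or.inr ⟨h3, hA, not_le.1 h⟩)⟩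

theorem psi_nonneg (hn : ¬ SR J Γ F) {D : ι → ℝ} (h0 : 0 ≤ D) (hs : ∀ j, j ∉ J → D j = 0)
    (h3 : F.φ D D D = 0) : 0 ≤ F.ψ D D := by
  have h := A_nonneg hn h0 hs h3 (AddSubgroup.zero_mem _) (fun _ _ => le_rfl)
  unfold Cub.A at h
  simpa using h

theorem g_nonneg (hG : GG J Γ) (hn : ¬ SR J Γ F) {D : ι → ℝ} (h0 : 0 ≤ D)
    (hs : ∀ j, j ∉ J → D j = 0) (h3 : F.φ D D D = 0) {j : ι} (hj : j ∈ J) :
    0 ≤ F.φ D D (Pi.single j 1) := by
  by_contra h
  rw [not_le] at h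
  obtain ⟨N, hN⟩ := exists_nat_gt (F.ψ D D / (- 3 * F.φ D D (Pi.single j 1)))
  have hy : (N : ℝ) • (Pi.single j (1 : ℝ) : ι → ℝ) ∈ lc Γ D := by
    have := (lc Γ D).nsmul_mem (le_lc Γ D (hG.one j hj)) N
    rwa [← Nat.cast_smul_eq_nsmul ℝ] at this
  have h1 := A_nonneg hn h0 hs h3 hy (fun i _ => by
    rw [Pi.smul_apply, Pi.single_apply]
    split_ifs <;> simp)
  unfold Cub.A at h1
  rw [map_smul, smul_eq_mul] at h1
  rw [div_lt_iff₀ (by linarith)] at hN
  nlinarith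

theorem g_zero (hG : GG J Γ) (hn : ¬ SR J Γ F) {D : ι → ℝ} (h0 : 0 ≤ D)
    (hs : ∀ j, j ∉ J → D j = 0) (h3 : F.φ D D D = 0) {j : ι} (hj : D j ≠ 0) :
    F.φ D D (Pi.single j 1) = 0 := by
  have h1 := lin_sum (F.φ D D) D
  rw [h3] at h1
  have h2 : ∀ i ∈ Finset.univ, 0 ≤ D i * F.φ D D (Pi.single i 1) := by
    intro i _
    by_cases hi : i ∈ J
    · exact mul_nonneg (h0 i) (g_nonneg hG hn h0 hs h3 hi)
    · rw [hs i hi, zero_mul]
  have h3 := (Finset.sum_eq_zero_iff_of_nonneg h2).1 h1.symm j (Finset.mem_univ _)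
  exact (mul_eq_zero.1 h3).resolve_left hj

theorem g_nonneg_of (hG : GG J Γ) (hn : ¬ SR J Γ F) {D : ι → ℝ} (h0 : 0 ≤ D)
    (hs : ∀ j, j ∉ J → D j = 0) (h3 : F.φ D D D = 0) {y : ι → ℝ} (hy : ∀ j, j ∉ J → y j = 0)
    (hy0 : ∀ j, D j = 0 → 0 ≤ y j) : 0 ≤ F.φ D D y := by
  rw [lin_sum (F.φ D D) y]
  refine Finset.sum_nonneg fun i _ => ?_
  by_cases hi : i ∈ J
  · by_cases hd : D i = 0
    · exact mul_nonneg (hy0 i hd) (g_nonneg hG hn h0 hs h3 hi)
    · rw [g_zero hG hn h0 hs h3 hd, mul_zero]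
  · rw [hy i hi, zero_mul]

theorem A_nonneg' (hG : GG J Γ) (hn : ¬ SR J Γ F) {D : ι → ℝ} (h0 : 0 ≤ D)
    (hs : ∀ j, j ∉ J → D j = 0) (h3 : F.φ D D D = 0) {y : ι → ℝ} (hy : ∀ j, j ∉ J → y j = 0)
    (hy0 : ∀ j, D j = 0 → 0 ≤ y j) : 0 ≤ F.A D y := by
  unfold Cub.A
  have h1 := g_nonneg_of hG hn h0 hs h3 hy hy0
  have h2 := psi_nonneg hn h0 hs h3
  linarith

end facts

/-- values of `F` along `x = λ u` -/
theorem eval_smul (F : Cub (ι → ℝ)) (t : ℝ) (u : ι → ℝ) :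
    F.eval (t • u) = t ^ 3 * F.φ u u u + t ^ 2 * F.ψ u u + t * F.l u + F.c := by
  have h := F.eval_add_smul 0 u t
  rw [zero_add] at h
  rw [h]
  unfold Cub.A Cub.q Cub.eval
  simp

section step

variable {J : Finset ι} {Γ : AddSubgroup (ι → ℝ)} {F : Cub (ι → ℝ)}

/-- the direction of the sequence -/
noncomputable def dir (x : ι → ℝ) : ι → ℝ := ‖x‖⁻¹ • x

theorem tendsto_norm_of (U : Ultrafilter (ι → ℝ)) (hb : Tendsto F.eval U atBot) :
    Tendsto (fun x : ι → ℝ => ‖x‖) U atTop := by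
  rw [tendsto_atTop]
  intro b
  rcases U.em (fun x => b ≤ ‖x‖) with h | h
  · exact h
  · exfalso
    obtain ⟨m, hm⟩ := (isCompact_closedBall (0 : ι → ℝ) b).bddBelow_image
      (f := F.eval) F.continuous_eval.continuousOn
    have h2 := (tendsto_atBot.1 hb (m - 1))
    obtain ⟨x, hx1, hx2⟩ := (h.and h2).exists
    have hx3 : x ∈ Metric.closedBall (0 : ι → ℝ) b := by
      rw [mem_closedBall_zero_iff]; exact (not_le.1 hx1).le
    have := hm (Set.mem_image_of_mem F.eval hx3)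
    linarith

theorem step_limit (hG : GG J Γ) (hn : ¬ SR J Γ F) (U : Ultrafilter (ι → ℝ))
    (hU : ∀ᶠ x in (U : Filter (ι → ℝ)), x ∈ Γ ∧ 0 ≤ x) (hb : Tendsto F.eval U atBot) :
    ∃ d : ι → ℝ, ‖d‖ = 1 ∧ 0 ≤ d ∧ (∀ j, j ∉ J → d j = 0) ∧ Tendsto dir U (𝓝 d) ∧
      F.φ d d d = 0 ∧ F.ψ d d = 0 ∧
      Tendsto (fun x => ‖x‖ * F.φ (dir x) (dir x) (dir x)) U (𝓝 0) := by
  have hN := tendsto_norm_of U hb
  have hpos : ∀ᶠ x in (U : Filter (ι → ℝ)), 0 < ‖x‖ := hN.eventually_gt_atTop 0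
  obtain ⟨d, hd1, hlim⟩ := ultra_lim U (isCompact_sphere (0 : ι → ℝ) 1) (f := dir) (by
      filter_upwards [hpos] with x hx
      rw [mem_sphere_zero_iff_norm, dir, norm_smul, norm_inv, norm_norm,
        inv_mul_cancel₀ hx.ne'])
  rw [mem_sphere_zero_iff_norm] at hd1
  have hcomp : ∀ j, Tendsto (fun x => dir x j) U (𝓝 (d j)) := fun j => (tendsto_pi_nhds.1 hlim) j
  have hd0 : 0 ≤ d := fun j => ge_of_tendsto (hcomp j) (by
    filter_upwards [hU] with x hx
    exact mul_nonneg (inv_nonneg.2 (norm_nonneg _)) (hx.2 j))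
  have hds : ∀ j, j ∉ J → d j = 0 := fun j hj =>
    tendsto_nhds_unique (hcomp j) (by
      refine tendsto_const_nhds.congr' ?_
      filter_upwards [hU] with x hx
      simp [dir, hG.supp x hx.1 j hj])
  have hinv : Tendsto (fun x : ι → ℝ => ‖x‖⁻¹) U (𝓝 0) := tendsto_inv_atTop_zero.comp hN
  have hev : ∀ᶠ x in (U : Filter (ι → ℝ)), F.eval x < 0 := hb.eventually_lt_atBot 0
  have h3lim := tendsto_tri F.φ hlim hlim hlim
  have h2lim := tendsto_bil F.ψ hlim hlim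
  have h1lim := tendsto_lin F.l hlim
  have hnn : ∀ᶠ x in (U : Filter (ι → ℝ)), 0 ≤ F.φ (dir x) (dir x) (dir x) := by
    filter_upwards [hU] with x hx
    refine tri_nonneg hn (fun j => mul_nonneg (inv_nonneg.2 (norm_nonneg _)) (hx.2 j)) ?_
    intro j hj
    simp [dir, hG.supp x hx.1 j hj]
  have key : ∀ᶠ x in (U : Filter (ι → ℝ)), ‖x‖ * F.φ (dir x) (dir x) (dir x) ≤
      -(F.ψ (dir x) (dir x) + ‖x‖⁻¹ * F.l (dir x) + ‖x‖⁻¹ ^ 2 * F.c) := by
    filter_upwards [hpos, hev] with x hx hx2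
    have e : x = ‖x‖ • dir x := by
      rw [dir, smul_smul, mul_inv_cancel₀ hx.ne', one_smul]
    have h := eval_smul F ‖x‖ (dir x)
    rw [← e] at h
    rw [h] at hx2
    have h5 : ‖x‖⁻¹ ^ 2 * (‖x‖ ^ 3 * F.φ (dir x) (dir x) (dir x) +
      ‖x‖ ^ 2 * F.ψ (dir x) (dir x) + ‖x‖ * F.l (dir x) + F.c) < 0 :=
      mul_neg_of_pos_of_neg (by positivity) hx2
    have h6 : ‖x‖⁻¹ ^ 2 * (‖x‖ ^ 3 * F.φ (dir x) (dir x) (dir x) +
      ‖x‖ ^ 2 * F.ψ (dir x) (dir x) + ‖x‖ * F.l (dir x) + F.c) =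
      ‖x‖ * F.φ (dir x) (dir x) (dir x) + F.ψ (dir x) (dir x) + ‖x‖⁻¹ * F.l (dir x) +
        ‖x‖⁻¹ ^ 2 * F.c := by
      field_simp
    rw [h6] at h5
    linarith
  have hrhs : Tendsto (fun x => -(F.ψ (dir x) (dir x) + ‖x‖⁻¹ * F.l (dir x) +
      ‖x‖⁻¹ ^ 2 * F.c)) U (𝓝 (-(F.ψ d d))) := by
    have := ((h2lim.add (hinv.mul h1lim)).add ((hinv.pow 2).mul_const F.c)).neg
    simpa using this
  have hd3 : F.φ d d d = 0 := by
    have h1 : Tendsto (fun x => F.φ (dir x) (dir x) (dir x)) U (𝓝 0) := by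
      refine squeeze_zero' hnn (g := fun x => ‖x‖⁻¹ * -(F.ψ (dir x) (dir x) +
        ‖x‖⁻¹ * F.l (dir x) + ‖x‖⁻¹ ^ 2 * F.c)) ?_ ?_
      · filter_upwards [key, hpos] with x hx hx2
        have h2 := mul_le_mul_of_nonneg_left hx (inv_nonneg.2 hx2.le)
        rwa [← mul_assoc, inv_mul_cancel₀ hx2.ne', one_mul] at h2
      · have := hinv.mul hrhs
        simpa using this
    exact tendsto_nhds_unique h3lim h1
  have hd2 : F.ψ d d = 0 := by
    refine le_antisymm ?_ (psi_nonneg hn hd0 hds hd3)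
    have h1 : (0 : ℝ) ≤ -(F.ψ d d) := by
      refine ge_of_tendsto hrhs ?_
      filter_upwards [key, hpos, hnn] with x hx hx2 hx3
      exact (mul_nonneg hx2.le hx3).trans hx
    linarith
  refine ⟨d, hd1, hd0, hds, hlim, hd3, hd2, ?_⟩
  refine squeeze_zero' ?_ key ?_
  · filter_upwards [hpos, hnn] with x hx2 hx3
    exact mul_nonneg hx2.le hx3
  · rw [hd2, neg_zero] at hrhs
    exact hrhs

theorem step_compare (hG : GG J Γ) (hn : ¬ SR J Γ F) (U : Ultrafilter (ι → ℝ))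
    (hU : ∀ᶠ x in (U : Filter (ι → ℝ)), x ∈ Γ ∧ 0 ≤ x) (hb : Tendsto F.eval U atBot)
    {d : ι → ℝ} (hd0 : 0 ≤ d) (hds : ∀ j, j ∉ J → d j = 0)
    (hlim : Tendsto dir U (𝓝 d)) (hd3 : F.φ d d d = 0)
    (hl3 : Tendsto (fun x => ‖x‖ * F.φ (dir x) (dir x) (dir x)) U (𝓝 0)) :
    Tendsto (fun x => F.φ d d x) U (𝓝 0) := by
  have hN := tendsto_norm_of U hb
  have hpos : ∀ᶠ x in (U : Filter (ι → ℝ)), 0 < ‖x‖ := hN.eventually_gt_atTop 0
  set w : (ι → ℝ) → (ι → ℝ) := fun u j =>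
    if j ∈ J ∧ 0 < F.φ d d (Pi.single j 1) then u j else 0 with hw
  have hdj : ∀ j, j ∈ J ∧ 0 < F.φ d d (Pi.single j 1) → d j = 0 := by
    intro j hj
    by_contra h
    rw [g_zero hG hn hd0 hds hd3 h] at hj
    exact lt_irrefl _ hj.2
  have hcomp : ∀ j, Tendsto (fun x => dir x j) U (𝓝 (d j)) := fun j => (tendsto_pi_nhds.1 hlim) j
  have hwlim : Tendsto (fun x => w (dir x)) U (𝓝 0) := by
    rw [tendsto_pi_nhds]
    intro j
    simp only [hw]
    split_ifs with h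
    · have := hcomp j
      rwa [hdj j h] at this
    · exact tendsto_const_nhds
  have hev : ∀ j, ∀ᶠ x in (U : Filter (ι → ℝ)), j ∈ J ∧ 0 < F.φ d d (Pi.single j 1) →
      F.φ d d (Pi.single j 1) ≤ 3 * (F.φ (dir x) (dir x) (Pi.single j 1) -
        F.φ (w (dir x)) (dir x) (Pi.single j 1)) := by
    intro j
    by_cases h : j ∈ J ∧ 0 < F.φ d d (Pi.single j 1)
    · have h1 := tendsto_tri F.φ hlim hlim (tendsto_const_nhds (x := (Pi.single j 1 : ι → ℝ)))
      have h2 := tendsto_tri F.φ hwlim hlim (tendsto_const_nhds (x := (Pi.single j 1 : ι → ℝ)))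
      have h3 := (h1.sub h2).const_mul 3
      rw [map_zero, LinearMap.zero_apply, LinearMap.zero_apply, sub_zero] at h3
      filter_upwards [h3.eventually_const_lt
        (show F.φ d d (Pi.single j 1) < 3 * F.φ d d (Pi.single j 1) by linarith [h.2])] with x hx _
      exact hx.le
    · exact Eventually.of_forall fun x hx => absurd hx h
  have hev' := eventually_all.2 hev
  refine squeeze_zero' ?_ ?_ hl3
  · filter_upwards [hU] with x hx
    exact g_nonneg_of hG hn hd0 hds hd3 (fun j hj => hG.supp x hx.1 j hj) (fun j _ => hx.2 j)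
  · filter_upwards [hU, hpos, hev'] with x hx hp hxe
    have hu0 : 0 ≤ dir x := fun j => mul_nonneg (inv_nonneg.2 (norm_nonneg _)) (hx.2 j)
    have hus : ∀ j, j ∉ J → dir x j = 0 := fun j hj => by simp [dir, hG.supp x hx.1 j hj]
    have e : x = ‖x‖ • dir x := by
      rw [dir, smul_smul, mul_inv_cancel₀ hp.ne', one_smul]
    have e2 : F.φ d d x = ‖x‖ * F.φ d d (dir x) := by
      conv_lhs => rw [e]
      rw [map_smul, smul_eq_mul]
    rw [e2]
    refine mul_le_mul_of_nonneg_left ?_ hp.le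
    set u := dir x with hu
    have hw0 : 0 ≤ w u := by
      intro j
      simp only [hw, Pi.zero_apply]
      split_ifs
      · exact hu0 j
      · exact le_rfl
    have hws : ∀ j, j ∉ J → w u j = 0 := fun j hj => by simp [hw, hj]
    have hm0 : 0 ≤ u + (-1 : ℝ) • w u := by
      intro j
      simp only [hw, Pi.zero_apply, Pi.add_apply, Pi.smul_apply, smul_eq_mul]
      split_ifs
      · linarith
      · have := hu0 j
        simp only [Pi.zero_apply] at this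
        linarith
    have hms : ∀ j, j ∉ J → (u + (-1 : ℝ) • w u) j = 0 := fun j hj => by
      simp [hws j hj, hus j hj]
    have k1 := tri_nonneg hn hm0 hms
    have k2 := tri_nonneg hn hw0 hws
    rw [F.φ_lin u (w u) (-1)] at k1
    have k3 : F.φ (w u) (w u) u = F.φ (w u) u (w u) := F.s23 _ _ _
    have k4 := lin_sum (F.φ (w u) u) (w u)
    have k5 := lin_sum (F.φ u u) (w u)
    have k6 : F.φ d d u ≤ ∑ j, w u j * (3 * (F.φ u u (Pi.single j 1) -
        F.φ (w u) u (Pi.single j 1))) := by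
      rw [lin_sum (F.φ d d) u]
      refine Finset.sum_le_sum fun j _ => ?_
      by_cases h : j ∈ J ∧ 0 < F.φ d d (Pi.single j 1)
      · have e3 : w u j = u j := by simp [hw, h]
        rw [e3]
        exact mul_le_mul_of_nonneg_left (hxe j h) (hu0 j)
      · have e3 : w u j = 0 := by simp only [hw]; rw [if_neg h]
        rw [e3, zero_mul]
        by_cases hj : j ∈ J
        · have : F.φ d d (Pi.single j 1) ≤ 0 := not_lt.1 fun h' => h ⟨hj, h'⟩
          exact mul_nonpos_of_nonneg_of_nonpos (hu0 j) this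
        · rw [hus j hj, zero_mul]
    have k7 : ∑ j, w u j * (3 * (F.φ u u (Pi.single j 1) - F.φ (w u) u (Pi.single j 1))) =
        3 * F.φ u u (w u) - 3 * F.φ (w u) u (w u) := by
      rw [k4, k5, Finset.mul_sum, Finset.mul_sum, ← Finset.sum_sub_distrib]
      refine Finset.sum_congr rfl fun j _ => ?_
      ring
    rw [k7] at k6
    rw [k3] at k1
    nlinarith

theorem step_facet (hG : GG J Γ) (hn : ¬ SR J Γ F) (U : Ultrafilter (ι → ℝ))
    (hU : ∀ᶠ x in (U : Filter (ι → ℝ)), x ∈ Γ ∧ 0 ≤ x) (hb : Tendsto F.eval U atBot)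
    {B : ℝ} (hB : ∀ i ∈ J, ∀ x ∈ Γ, 0 ≤ x → x i = 0 → B ≤ F.eval x)
    {d : ι → ℝ} (hd0 : 0 ≤ d) (hds : ∀ j, j ∉ J → d j = 0)
    (hlim : Tendsto dir U (𝓝 d)) (hd3 : F.φ d d d = 0)
    (hl : Tendsto (fun x => F.φ d d x) U (𝓝 0)) {j : ι} (hj : j ∈ J) :
    F.φ d d (Pi.single j 1) = 0 := by
  have hN := tendsto_norm_of U hb
  have hpos : ∀ᶠ x in (U : Filter (ι → ℝ)), 0 < ‖x‖ := hN.eventually_gt_atTop 0
  have hlow : ∀ᶠ x in (U : Filter (ι → ℝ)), F.eval x < B := hb.eventually_lt_atBot B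
  have hgx : ∀ᶠ x in (U : Filter (ι → ℝ)), ∀ i ∈ J, x i * F.φ d d (Pi.single i 1) ≤ F.φ d d x := by
    filter_upwards [hU] with x hx i hi
    rw [lin_sum (F.φ d d) x]
    refine Finset.single_le_sum (f := fun i => x i * F.φ d d (Pi.single i 1)) ?_
      (Finset.mem_univ i)
    intro k _
    by_cases hk : k ∈ J
    · exact mul_nonneg (hx.2 k) (g_nonneg hG hn hd0 hds hd3 hk)
    · simp [hG.supp x hx.1 k hk]
  have hnn : ∀ᶠ x in (U : Filter (ι → ℝ)), 0 ≤ F.φ d d x := by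
    filter_upwards [hU] with x hx
    exact g_nonneg_of hG hn hd0 hds hd3 (fun j hj => hG.supp x hx.1 j hj) (fun j _ => hx.2 j)
  by_contra hne
  have hgj : 0 < F.φ d d (Pi.single j 1) :=
    lt_of_le_of_ne (g_nonneg hG hn hd0 hds hd3 hj) (Ne.symm hne)
  rcases U.em (fun x => 0 < F.φ d d x) with hcase | hcase
  · -- positive case
    obtain ⟨r0, hr0, hr⟩ := ultra_lim U (isCompact_Icc (a := (0 : ι → ℝ)) (b := 1))
      (f := fun (x : ι → ℝ) i => Int.fract (x i)) (Eventually.of_forall fun x =>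
        ⟨fun i => Int.fract_nonneg _, fun i => (Int.fract_lt_one _).le⟩)
    have hrΓ : ∀ᶠ x in (U : Filter (ι → ℝ)), (fun i => Int.fract (x i)) ∈ Γ := by
      filter_upwards [hU] with x hx
      exact fract_mem hG.one hG.supp hx.1
    have hr0Γ : r0 ∈ Γ := hG.closed.mem_of_tendsto hr hrΓ
    have hsmall : Tendsto (fun (x : ι → ℝ) i => Int.fract (x i) - r0 i) U (𝓝 (0 : ι → ℝ)) := by
      have := hr.sub_const r0
      rwa [sub_self] at this
    have hlin := hsmall.eventually (small_mem hG.closed)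
    have hone : ∀ i, ∀ᶠ x in (U : Filter (ι → ℝ)), i ∈ J → 0 < F.φ d d (Pi.single i 1) →
        x i < 1 := by
      intro i
      by_cases hi : i ∈ J ∧ 0 < F.φ d d (Pi.single i 1)
      · filter_upwards [hgx, hl.eventually_lt_const hi.2] with x hx hx2 _ _
        have := hx i hi.1
        by_contra hcon
        nlinarith [hi.2]
      · exact Eventually.of_forall fun x h1 h2 => absurd ⟨h1, h2⟩ hi
    have hone' := eventually_all.2 hone
    have hfr : ∀ᶠ x in (U : Filter (ι → ℝ)),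
        F.φ d d (fun i => Int.fract (x i)) = F.φ d d x := by
      filter_upwards [hU, hone'] with x hx hx1
      rw [lin_sum (F.φ d d) x, lin_sum (F.φ d d) (fun i => Int.fract (x i))]
      refine Finset.sum_congr rfl fun i _ => ?_
      by_cases hi : i ∈ J
      · rcases (g_nonneg hG hn hd0 hds hd3 hi).eq_or_lt with h | h
        · rw [← h, mul_zero, mul_zero]
        · rw [Int.fract_eq_self.2 ⟨hx.2 i, hx1 i hi h⟩]
      · simp [hG.supp x hx.1 i hi]
    have hr0z : F.φ d d r0 = 0 := by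
      have h1 := tendsto_lin (F.φ d d) hr
      exact tendsto_nhds_unique (h1.congr' hfr) hl
    obtain ⟨x₁, h1, h2, h3, h4⟩ := (hlin.and (hrΓ.and (hfr.and hcase))).exists
    set v : ι → ℝ := fun i => Int.fract (x₁ i) - r0 i with hv
    have hvΓ : v ∈ Γ := Γ.sub_mem h2 hr0Γ
    have hvl : v ∈ lin Γ := h1 hvΓ
    have hvpos : 0 < F.φ d d v := by
      have e : v = (fun i => Int.fract (x₁ i)) - r0 := rfl
      rw [e, map_sub, hr0z, sub_zero, h3]
      exact h4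
    have hvs : ∀ i, i ∉ J → v i = 0 := fun i hi => hG.supp v hvΓ i hi
    -- a coordinate with `g_k > 0`, `v_k > 0`
    obtain ⟨k, hk⟩ : ∃ k, 0 < v k * F.φ d d (Pi.single k 1) := by
      by_contra hcon
      push Not at hcon
      have := Finset.sum_nonpos fun i (_ : i ∈ Finset.univ) => hcon i
      rw [← lin_sum] at this
      linarith
    have hkJ : k ∈ J := by
      by_contra hkJ
      rw [hvs k hkJ, zero_mul] at hk
      exact lt_irrefl _ hk
    have hgk : 0 < F.φ d d (Pi.single k 1) := by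
      refine lt_of_le_of_ne (g_nonneg hG hn hd0 hds hd3 hkJ) ?_
      intro h
      rw [← h, mul_zero] at hk
      exact lt_irrefl _ hk
    have hvk : 0 < v k := (pos_iff_pos_of_mul_pos hk).2 hgk
    have hxk : ∀ᶠ x in (U : Filter (ι → ℝ)), x k ≤ v k := by
      filter_upwards [hgx, hl.eventually_lt_const (mul_pos hvk hgk)] with x hx hx2
      have := hx k hkJ
      by_contra hcon
      nlinarith
    -- the derivative dominates
    have hinv : Tendsto (fun x : ι → ℝ => ‖x‖⁻¹) U (𝓝 0) := tendsto_inv_atTop_zero.comp hN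
    have hvc : Tendsto (fun _ : ι → ℝ => v) U (𝓝 v) := tendsto_const_nhds
    have hq : Tendsto (fun x => (3 * F.φ v (dir x) (dir x) + ‖x‖⁻¹ * (2 * F.ψ v (dir x)) +
        ‖x‖⁻¹ ^ 2 * F.l v) - (‖x‖⁻¹ * |3 * F.φ v v (dir x) + ‖x‖⁻¹ * F.ψ v v| +
        ‖x‖⁻¹ ^ 2 * |F.φ v v v|)) U (𝓝 (3 * F.φ v d d)) := by
      have t1 := (tendsto_tri F.φ hvc hlim hlim).const_mul 3
      have t2 := hinv.mul ((tendsto_bil F.ψ hvc hlim).const_mul 2)
      have t3 := (hinv.pow 2).mul_const (F.l v)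
      have t4 := hinv.mul (((tendsto_tri F.φ hvc hvc hlim).const_mul 3).add
        (hinv.mul_const (F.ψ v v))).abs
      have t5 := (hinv.pow 2).mul_const |F.φ v v v|
      have := ((t1.add t2).add t3).sub (t4.add t5)
      simpa using this
    have hvd : F.φ v d d = F.φ d d v := by rw [F.s12, F.s23]
    have hqpos := hq.eventually_const_lt (show (0 : ℝ) < 3 * F.φ v d d by rw [hvd]; linarith)
    obtain ⟨x, hx, hxp, hxl, hxk', hxq⟩ := (hU.and (hpos.and (hlow.and (hxk.and hqpos)))).exists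
    have hPne : (Finset.univ.filter fun i => 0 < v i).Nonempty := ⟨k, by simp [hvk]⟩
    obtain ⟨i, hi, hmin⟩ := Finset.exists_min_image _ (fun i => x i / v i) hPne
    have hvi : 0 < v i := by simpa using hi
    have hiJ : i ∈ J := by
      by_contra h
      rw [hvs i h] at hvi
      exact lt_irrefl _ hvi
    set t := x i / v i with ht
    have ht0 : 0 ≤ t := div_nonneg (hx.2 i) hvi.le
    have ht1 : t ≤ 1 := by
      have := hmin k (by simp [hvk])
      refine this.trans ?_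
      rw [div_le_one hvk]
      exact hxk'
    have hx'Γ : x + (-t) • v ∈ Γ := Γ.add_mem hx.1 (mem_lin.1 hvl _)
    have hx'0 : 0 ≤ x + (-t) • v := by
      intro m
      simp only [Pi.zero_apply, Pi.add_apply, Pi.smul_apply, smul_eq_mul]
      by_cases hm : 0 < v m
      · have := hmin m (by simp [hm])
        rw [le_div_iff₀ hm] at this
        linarith
      · have h5 : v m ≤ 0 := not_lt.1 hm
        have h6 := hx.2 m
        simp only [Pi.zero_apply] at h6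
        nlinarith
    have hx'i : (x + (-t) • v) i = 0 := by
      simp only [Pi.add_apply, Pi.smul_apply, smul_eq_mul, ht]
      field_simp
      ring
    have hge := hB i hiJ _ hx'Γ hx'0 hx'i
    rw [F.eval_add_smul] at hge
    -- scale back
    have e : x = ‖x‖ • dir x := by
      rw [dir, smul_smul, mul_inv_cancel₀ hxp.ne', one_smul]
    have s1 : F.q v x = ‖x‖ ^ 2 * (3 * F.φ v (dir x) (dir x) + ‖x‖⁻¹ * (2 * F.ψ v (dir x)) +
        ‖x‖⁻¹ ^ 2 * F.l v) := by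
      unfold Cub.q
      have a1 : F.φ v x x = ‖x‖ ^ 2 * F.φ v (dir x) (dir x) := by
        conv_lhs => rw [e]
        simp only [map_smul, LinearMap.smul_apply, smul_eq_mul]
        ring
      have a2 : F.ψ v x = ‖x‖ * F.ψ v (dir x) := by
        conv_lhs => rw [e]
        simp only [map_smul, smul_eq_mul]
      rw [a1, a2]
      field_simp
    have s2 : F.A v x = ‖x‖ * (3 * F.φ v v (dir x) + ‖x‖⁻¹ * F.ψ v v) := by
      unfold Cub.A
      have a1 : F.φ v v x = ‖x‖ * F.φ v v (dir x) := by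
        conv_lhs => rw [e]
        simp only [map_smul, smul_eq_mul]
      rw [a1]
      field_simp
    have s3 : |F.A v x| + |F.φ v v v| < F.q v x := by
      rw [s1, s2, abs_mul, abs_of_pos hxp]
      have := mul_pos (pow_pos hxp 2) hxq
      have e5 : ‖x‖ ^ 2 * ((3 * F.φ v (dir x) (dir x) + ‖x‖⁻¹ * (2 * F.ψ v (dir x)) +
        ‖x‖⁻¹ ^ 2 * F.l v) - (‖x‖⁻¹ * |3 * F.φ v v (dir x) + ‖x‖⁻¹ * F.ψ v v| +
        ‖x‖⁻¹ ^ 2 * |F.φ v v v|)) = ‖x‖ ^ 2 * (3 * F.φ v (dir x) (dir x) +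
        ‖x‖⁻¹ * (2 * F.ψ v (dir x)) + ‖x‖⁻¹ ^ 2 * F.l v) -
        (‖x‖ * |3 * F.φ v v (dir x) + ‖x‖⁻¹ * F.ψ v v| + |F.φ v v v|) := by
        field_simp
      rw [e5] at this
      linarith
    have s4 : 0 ≤ t * (F.q v x - t * F.A v x + t ^ 2 * F.φ v v v) := by
      refine mul_nonneg ht0 ?_
      have a1 := le_abs_self (F.A v x)
      have a2 := neg_abs_le (F.φ v v v)
      have a3 : t * F.A v x ≤ |F.A v x| := by
        have b1 := mul_le_mul_of_nonneg_left a1 ht0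
        have b2 := mul_le_mul_of_nonneg_right ht1 (abs_nonneg (F.A v x))
        linarith
      have a4 : - |F.φ v v v| ≤ t ^ 2 * F.φ v v v := by
        have b1 := mul_le_mul_of_nonneg_right (pow_le_one₀ ht0 ht1 : t ^ 2 ≤ 1)
          (abs_nonneg (F.φ v v v))
        have b2 := mul_le_mul_of_nonneg_left a2 (sq_nonneg t)
        linarith
      linarith
    linarith
  · obtain ⟨x, hx, hx2, hx3, hx4, hx5⟩ :=
      (hU.and (hgx.and (hnn.and (hcase.and hlow)))).exists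
    have hz : F.φ d d x = 0 := le_antisymm (not_lt.1 hx4) hx3
    have h5 := hx2 j hj
    rw [hz] at h5
    have h6 : x j = 0 := by
      have h7 := hx.2 j
      simp only [Pi.zero_apply] at h7
      nlinarith
    have := hB j hj x hx.1 hx.2 h6
    linarith

end step

end Pool.Agent.Q61.Thin
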