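import Mathlib

/-! Symmetric cubic data on a real vector space. -/

namespace Pool.Agent.Q61.Thin

open Filter Topology

/-- A cubic function `x ↦ φ(x,x,x) + ψ(x,x) + l(x) + c` with symmetric forms. -/
structure Cub (V : Type*) [AddCommGroup V] [Module ℝ V] where
  φ : V →ₗ[ℝ] V →ₗ[ℝ] V →ₗ[ℝ] ℝ
  ψ : V →ₗ[ℝ] V →ₗ[ℝ] ℝ
  l : V →ₗ[ℝ] ℝ
  c : ℝ
  s12 : ∀ x y z, φ x y z = φ y x z
  s23 : ∀ x y z, φ x y z = φ x z y
  s : ∀ x y, ψ x y = ψ y x

namespace Cub

variable {V W : Type*} [AddCommGroup V] [Module ℝ V] [AddCommGroup W] [Module ℝ W]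

/-- value of the cubic function -/
def eval (F : Cub V) (x : V) : ℝ := F.φ x x x + F.ψ x x + F.l x + F.c

/-- coefficient of `t^2` in `f (y + t D)` -/
def A (F : Cub V) (D y : V) : ℝ := 3 * F.φ D D y + F.ψ D D

/-- coefficient of `t` in `f (y + t D)` -/
def q (F : Cub V) (D y : V) : ℝ := 3 * F.φ D y y + 2 * F.ψ D y + F.l D

theorem eval_add_smul (F : Cub V) (y D : V) (t : ℝ) :
    F.eval (y + t • D) = t ^ 3 * F.φ D D D + t ^ 2 * F.A D y + t * F.q D y + F.eval y := by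
  unfold eval A q
  simp only [map_add, map_smul, LinearMap.add_apply, LinearMap.smul_apply, smul_eq_mul]
  have h1 : F.φ y D y = F.φ D y y := F.s12 _ _ _
  have h2 : F.φ y y D = F.φ D y y := by rw [F.s23, h1]
  have h3 : F.φ D y D = F.φ D D y := F.s23 _ _ _
  have h4 : F.φ y D D = F.φ D D y := by rw [F.s12, h3]
  have h5 : F.ψ y D = F.ψ D y := F.s _ _
  rw [h1, h2, h3, h4, h5]
  ring

/-- the cubic function `x ↦ f (v + L x)` -/
noncomputable def comp (F : Cub W) (L : V →ₗ[ℝ] W) (v : W) : Cub V where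
  φ := (F.φ.compl₁₂ L L).compr₂ (LinearMap.lcomp ℝ ℝ L)
  ψ := F.ψ.compl₁₂ L L + (3 : ℝ) • (F.φ v).compl₁₂ L L
  l := F.l.comp L + (2 : ℝ) • (F.ψ v).comp L + (3 : ℝ) • (F.φ v v).comp L
  c := F.eval v
  s12 := by intro x y z; simp [F.s12 (L x) (L y)]
  s23 := by intro x y z; simp [F.s23 (L x) (L y)]
  s := by intro x y; simp [F.s (L x) (L y), F.s23 v (L x) (L y)]

@[simp] theorem comp_φ (F : Cub W) (L : V →ₗ[ℝ] W) (v : W) (x y z : V) :
    (F.comp L v).φ x y z = F.φ (L x) (L y) (L z) := by simp [comp]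

@[simp] theorem comp_ψ (F : Cub W) (L : V →ₗ[ℝ] W) (v : W) (x y : V) :
    (F.comp L v).ψ x y = F.ψ (L x) (L y) + 3 * F.φ v (L x) (L y) := by simp [comp]

@[simp] theorem comp_l (F : Cub W) (L : V →ₗ[ℝ] W) (v : W) (x : V) :
    (F.comp L v).l x = F.l (L x) + 2 * F.ψ v (L x) + 3 * F.φ v v (L x) := by simp [comp]

theorem comp_eval (F : Cub W) (L : V →ₗ[ℝ] W) (v : W) (x : V) :
    (F.comp L v).eval x = F.eval (v + L x) := by
  have h := F.eval_add_smul v (L x) 1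
  rw [one_smul] at h
  rw [h]
  unfold eval A q
  simp only [comp_φ, comp_ψ, comp_l]
  have h1 : F.φ v (L x) (L x) = F.φ (L x) (L x) v := by rw [F.s12, F.s23]
  have h2 : F.φ v v (L x) = F.φ (L x) v v := by rw [F.s23, F.s12]
  have h5 : F.ψ v (L x) = F.ψ (L x) v := F.s _ _
  have h6 : (F.comp L v).c = F.eval v := rfl
  rw [h1, h2, h5, h6]
  unfold eval
  ring

theorem comp_zero_A (F : Cub W) (L : V →ₗ[ℝ] W) (D y : V) :
    (F.comp L 0).A D y = F.A (L D) (L y) := by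
  unfold A; simp

theorem comp_zero_q (F : Cub W) (L : V →ₗ[ℝ] W) (D y : V) :
    (F.comp L 0).q D y = F.q (L D) (L y) := by
  unfold q; simp

theorem A_add (F : Cub V) (D y z : V) : F.A D (y + z) = F.A D y + 3 * F.φ D D z := by
  unfold A; simp; ring

/-- linearity of `q` in the direction -/
theorem q_lin (F : Cub V) (D d y : V) (τ : ℝ) : F.q (D + τ • d) y = F.q D y + τ * F.q d y := by
  unfold q
  simp only [map_add, map_smul, LinearMap.add_apply, LinearMap.smul_apply, smul_eq_mul]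
  ring

theorem φ_lin (F : Cub V) (D d : V) (τ : ℝ) :
    F.φ (D + τ • d) (D + τ • d) (D + τ • d) =
      F.φ D D D + 3 * τ * F.φ D D d + 3 * τ ^ 2 * F.φ d d D + τ ^ 3 * F.φ d d d := by
  simp only [map_add, map_smul, LinearMap.add_apply, LinearMap.smul_apply, smul_eq_mul]
  have h1 : F.φ D d D = F.φ D D d := F.s23 _ _ _
  have h2 : F.φ d D D = F.φ D D d := by rw [F.s12, h1]
  have h3 : F.φ d D d = F.φ d d D := F.s23 _ _ _
  have h4 : F.φ D d d = F.φ d d D := by rw [F.s12, h3]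
  rw [h1, h2, h3, h4]
  ring

theorem A_lin (F : Cub V) (D d y : V) (τ : ℝ) :
    F.A (D + τ • d) y = F.A D y + τ * (6 * F.φ D d y + 2 * F.ψ D d) + τ ^ 2 * F.A d y := by
  unfold A
  simp only [map_add, map_smul, LinearMap.add_apply, LinearMap.smul_apply, smul_eq_mul]
  have h1 : F.φ d D y = F.φ D d y := F.s12 _ _ _
  have h5 : F.ψ d D = F.ψ D d := F.s _ _
  rw [h1, h5]
  ring

end Cub

section fin

variable {ι : Type*} [Fintype ι]

theorem eq_sum_single [DecidableEq ι] (x : ι → ℝ) : x = ∑ i, x i • (Pi.single i (1 : ℝ) : ι → ℝ) := by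
  ext j
  simp [Finset.sum_apply, Pi.single_apply]

theorem lin_sum [DecidableEq ι] (l : (ι → ℝ) →ₗ[ℝ] ℝ) (x : ι → ℝ) : l x = ∑ i, x i * l (Pi.single i 1) := by
  conv_lhs => rw [eq_sum_single x]
  simp

theorem tendsto_lin {α : Type*} {U : Filter α} {x : α → ι → ℝ} {a : ι → ℝ}
    (l : (ι → ℝ) →ₗ[ℝ] ℝ) (hx : Tendsto x U (𝓝 a)) : Tendsto (fun t => l (x t)) U (𝓝 (l a)) :=
  (l.continuous_of_finiteDimensional.tendsto a).comp hx

theorem tendsto_bil {α : Type*} {U : Filter α} {x y : α → ι → ℝ} {a b : ι → ℝ}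
    (ψ : (ι → ℝ) →ₗ[ℝ] (ι → ℝ) →ₗ[ℝ] ℝ) (hx : Tendsto x U (𝓝 a)) (hy : Tendsto y U (𝓝 b)) :
    Tendsto (fun t => ψ (x t) (y t)) U (𝓝 (ψ a b)) := by
  classical
  have e : (fun t => ψ (x t) (y t)) = fun t => ∑ i, y t i * ψ (x t) (Pi.single i 1) :=
    funext fun t => lin_sum (ψ (x t)) (y t)
  rw [e, lin_sum (ψ a) b]
  refine tendsto_finsetSum _ fun i _ => Tendsto.mul ((continuous_apply i).tendsto b |>.comp hy) ?_
  exact tendsto_lin (ψ.flip (Pi.single i 1)) hx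

theorem tendsto_tri {α : Type*} {U : Filter α} {x y z : α → ι → ℝ} {a b c : ι → ℝ}
    (φ : (ι → ℝ) →ₗ[ℝ] (ι → ℝ) →ₗ[ℝ] (ι → ℝ) →ₗ[ℝ] ℝ) (hx : Tendsto x U (𝓝 a))
    (hy : Tendsto y U (𝓝 b)) (hz : Tendsto z U (𝓝 c)) :
    Tendsto (fun t => φ (x t) (y t) (z t)) U (𝓝 (φ a b c)) := by
  classical
  have e : (fun t => φ (x t) (y t) (z t)) =
      fun t => ∑ i, z t i * φ (x t) (y t) (Pi.single i 1) :=
    funext fun t => lin_sum (φ (x t) (y t)) (z t)
  rw [e, lin_sum (φ a b) c]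
  refine tendsto_finsetSum _ fun i _ => Tendsto.mul ((continuous_apply i).tendsto c |>.comp hz) ?_
  exact tendsto_bil (φ.compr₂ (LinearMap.applyₗ (Pi.single i 1))) hx hy

theorem Cub.continuous_eval (F : Cub (ι → ℝ)) : Continuous F.eval := by
  rw [continuous_iff_continuousAt]
  intro x
  unfold Cub.eval ContinuousAt
  exact (((tendsto_tri F.φ tendsto_id tendsto_id tendsto_id).add
    (tendsto_bil F.ψ tendsto_id tendsto_id)).add (tendsto_lin F.l tendsto_id)).add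
    tendsto_const_nhds

end fin

end Pool.Agent.Q61.Thin
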