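import Pool.Agent.Q61.Thin.Cub

/-! Closed subgroups of `ℝ^ι`: closures of `Γ + ℝ d`, return times, generic directions. -/

namespace Pool.Agent.Q61.Thin

open Filter Topology

variable {ι : Type*} [Fintype ι]

/-- closure of `Γ + ℝ d` -/
noncomputable def lc (Γ : AddSubgroup (ι → ℝ)) (d : ι → ℝ) : AddSubgroup (ι → ℝ) :=
  (Γ ⊔ (Submodule.span ℝ {d}).toAddSubgroup).topologicalClosure

theorem mem_lc {Γ : AddSubgroup (ι → ℝ)} {d y : ι → ℝ} :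
    y ∈ lc Γ d ↔ ∀ ε : ℝ, 0 < ε → ∃ γ ∈ Γ, ∃ t : ℝ, ‖γ + t • d - y‖ < ε := by
  unfold lc
  rw [← SetLike.mem_coe, AddSubgroup.topologicalClosure_coe, Metric.mem_closure_iff]
  constructor
  · intro h ε hε
    obtain ⟨b, hb, hd⟩ := h ε hε
    obtain ⟨γ, hγ, w, hw, e⟩ := AddSubgroup.mem_sup.1 hb
    obtain ⟨t, rfl⟩ := Submodule.mem_span_singleton.1 hw
    refine ⟨γ, hγ, t, ?_⟩
    rw [e, ← dist_eq_norm, dist_comm]
    exact hd
  · intro h ε hε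
    obtain ⟨γ, hγ, t, ht⟩ := h ε hε
    refine ⟨γ + t • d, AddSubgroup.mem_sup.2 ⟨γ, hγ, t • d,
      Submodule.mem_span_singleton.2 ⟨t, rfl⟩, rfl⟩, ?_⟩
    rw [dist_comm, dist_eq_norm]
    exact ht

omit [Fintype ι] in
theorem isClosed_lc (Γ : AddSubgroup (ι → ℝ)) (d : ι → ℝ) :
    IsClosed ((lc Γ d : AddSubgroup (ι → ℝ)) : Set (ι → ℝ)) :=
  AddSubgroup.isClosed_topologicalClosure _

theorem le_lc (Γ : AddSubgroup (ι → ℝ)) (d : ι → ℝ) : Γ ≤ lc Γ d := by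
  intro x hx
  rw [mem_lc]
  intro ε hε
  exact ⟨x, hx, 0, by simpa using hε⟩

theorem smul_mem_lc (Γ : AddSubgroup (ι → ℝ)) (d : ι → ℝ) (t : ℝ) : t • d ∈ lc Γ d := by
  rw [mem_lc]
  intro ε hε
  exact ⟨0, Γ.zero_mem, t, by simpa using hε⟩

theorem lc_mono {Γ Γ' : AddSubgroup (ι → ℝ)} (h : Γ ≤ Γ') (d : ι → ℝ) : lc Γ d ≤ lc Γ' d := by
  intro x hx
  rw [mem_lc] at hx ⊢
  intro ε hε
  obtain ⟨γ, hγ, t, ht⟩ := hx ε hε
  exact ⟨γ, h hγ, t, ht⟩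

theorem lc_supp {Γ : AddSubgroup (ι → ℝ)} {d : ι → ℝ} {j : ι} (h : ∀ x ∈ Γ, x j = 0)
    (hd : d j = 0) {y : ι → ℝ} (hy : y ∈ lc Γ d) : y j = 0 := by
  rw [mem_lc] at hy
  by_contra hne
  obtain ⟨γ, hγ, t, ht⟩ := hy |y j| (abs_pos.2 hne)
  have h1 : ‖(γ + t • d - y) j‖ ≤ ‖γ + t • d - y‖ := norm_le_pi_norm _ j
  have h2 : (γ + t • d - y) j = - y j := by simp [h γ hγ, hd]
  rw [h2, norm_neg, Real.norm_eq_abs] at h1
  linarith

section
variable [DecidableEq ι]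

theorem int_mem {J : Finset ι} {Γ : AddSubgroup (ι → ℝ)}
    (hJ : ∀ j ∈ J, Pi.single j (1 : ℝ) ∈ Γ) (z : ι → ℤ) (hz : ∀ j, j ∉ J → z j = 0) :
    (fun i => (z i : ℝ)) ∈ Γ := by
  have e : (fun i => (z i : ℝ)) = ∑ i, z i • (Pi.single i (1 : ℝ) : ι → ℝ) := by
    ext j
    simp [Finset.sum_apply, Pi.single_apply]
  rw [e]
  refine AddSubgroup.sum_mem _ fun i _ => ?_
  by_cases hi : i ∈ J
  · exact AddSubgroup.zsmul_mem _ (hJ i hi) _
  · rw [hz i hi, zero_smul]; exact Γ.zero_mem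

/-- floors: the fractional part of a group element is a group element -/
theorem fract_mem {J : Finset ι} {Γ : AddSubgroup (ι → ℝ)}
    (hJ : ∀ j ∈ J, Pi.single j (1 : ℝ) ∈ Γ) (hs : ∀ x ∈ Γ, ∀ j, j ∉ J → x j = 0)
    {x : ι → ℝ} (hx : x ∈ Γ) : (fun i => Int.fract (x i)) ∈ Γ := by
  have h1 : (fun i => ((⌊x i⌋ : ℤ) : ℝ)) ∈ Γ :=
    int_mem hJ (fun i => ⌊x i⌋) (fun j hj => by simp [hs x hx j hj])
  have h2 := Γ.sub_mem hx h1
  exact h2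

theorem syndetic {J : Finset ι} {Γ : AddSubgroup (ι → ℝ)}
    (hJ : ∀ j ∈ J, Pi.single j (1 : ℝ) ∈ Γ) {d : ι → ℝ} (hd : ∀ j, j ∉ J → d j = 0)
    {ε : ℝ} (hε : 0 < ε) :
    ∃ M : ℝ, 0 ≤ M ∧ ∀ c : ℝ, ∃ S : ℝ, c ≤ S ∧ S ≤ c + M ∧ ∃ γ ∈ Γ, ‖S • d - γ‖ < ε := by
  set g : ℝ → ι → ℝ := fun t i => Int.fract (t * d i) with hg
  have hK : TotallyBounded (Set.range g) := by
    refine (isCompact_Icc (a := (0 : ι → ℝ)) (b := 1)).totallyBounded.subset ?_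
    rintro _ ⟨t, rfl⟩
    exact ⟨fun i => Int.fract_nonneg _, fun i => (Int.fract_lt_one _).le⟩
  obtain ⟨T, hT, hfin, hcov⟩ := Metric.finite_approx_of_totallyBounded hK ε hε
  have h1 : ∀ y ∈ T, ∃ s, g s = y := fun y hy => hT hy
  choose! s hs using h1
  obtain ⟨M, hM⟩ := (hfin.image fun y => |s y|).bddAbove
  have hM' : ∀ y ∈ T, |s y| ≤ |M| := fun y hy =>
    (hM (Set.mem_image_of_mem _ hy)).trans (le_abs_self M)
  refine ⟨2 * |M|, by positivity, fun c => ?_⟩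
  have h2 : g (c + |M|) ∈ ⋃ y ∈ T, Metric.ball y ε := hcov ⟨_, rfl⟩
  simp only [Set.mem_iUnion, exists_prop] at h2
  obtain ⟨y, hy, hb⟩ := h2
  have h3 := hM' y hy
  have h4 := abs_le.1 h3
  refine ⟨c + |M| - s y, by linarith, by linarith, ?_⟩
  have h5 : (fun i => ((⌊(c + |M|) * d i⌋ : ℤ) : ℝ)) ∈ Γ :=
    int_mem hJ (fun i => ⌊(c + |M|) * d i⌋) (fun j hj => by simp [hd j hj])
  have h6 : (fun i => ((⌊s y * d i⌋ : ℤ) : ℝ)) ∈ Γ :=
    int_mem hJ (fun i => ⌊s y * d i⌋) (fun j hj => by simp [hd j hj])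
  refine ⟨_, Γ.sub_mem h5 h6, ?_⟩
  rw [Metric.mem_ball, dist_eq_norm, ← hs y hy] at hb
  have e : (c + |M| - s y) • d - ((fun i => ((⌊(c + |M|) * d i⌋ : ℤ) : ℝ)) -
      (fun i => ((⌊s y * d i⌋ : ℤ) : ℝ))) = g (c + |M|) - g (s y) := by
    ext i
    simp only [hg, Pi.sub_apply, Pi.smul_apply, smul_eq_mul, Int.fract]
    ring
  rw [e]
  exact hb

/-- The generic direction lemma. -/
theorem generic {J : Finset ι} {Γ : AddSubgroup (ι → ℝ)}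
    (hJ : ∀ j ∈ J, Pi.single j (1 : ℝ) ∈ Γ) {d D y : ι → ℝ} (hd : ∀ j, j ∉ J → d j = 0)
    (hD : ∀ j, j ∉ J → D j = 0)
    (hy : ∀ ε : ℝ, 0 < ε → ∃ γ ∈ Γ, ∃ a b : ℝ, ‖γ + a • d + b • D - y‖ < ε)
    (τ₀ : ℝ) {δ : ℝ} (hδ : 0 < δ) : ∃ τ : ℝ, |τ - τ₀| < δ ∧ y ∈ lc Γ (D + τ • d) := by
  set O : ℕ → Set ℝ := fun n =>
    {τ | ∃ γ ∈ Γ, ∃ t : ℝ, ‖γ + t • (D + τ • d) - y‖ < 1 / (n + 1)} with hO
  have hopen : ∀ n, IsOpen (O n) := by
    intro n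
    have e : O n = ⋃ γ ∈ Γ, ⋃ t : ℝ, {τ : ℝ | ‖γ + t • (D + τ • d) - y‖ < 1 / (n + 1)} := by
      ext τ; simp [hO]
    rw [e]
    refine isOpen_biUnion fun γ _ => isOpen_iUnion fun t => ?_
    exact isOpen_lt (by fun_prop) continuous_const
  have hdense : ∀ n, Dense (O n) := by
    intro n
    rw [Metric.dense_iff]
    intro τ₁ r hr
    have hε : (0 : ℝ) < 1 / (n + 1) := by positivity
    set ε : ℝ := 1 / (n + 1) with hεdef
    obtain ⟨γ₀, hγ₀, a, b, hab⟩ := hy (ε / 3) (by positivity)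
    obtain ⟨L, hL, hS⟩ := syndetic hJ hd (show (0 : ℝ) < ε / 3 by positivity)
    obtain ⟨L', hL', hT⟩ := syndetic hJ hD (show (0 : ℝ) < ε / 3 by positivity)
    obtain ⟨T, hT1, -, γ₁, hγ₁, hT2⟩ := hT (L / r + 1 - b)
    have ht : 0 < b + T := by
      have : 0 ≤ L / r := by positivity
      linarith
    obtain ⟨S, hS1, hS2, γ₂, hγ₂, hS3⟩ := hS ((b + T) * τ₁ - a)
    refine ⟨(a + S) / (b + T), ?_, γ₀ - γ₁ - γ₂, Γ.sub_mem (Γ.sub_mem hγ₀ hγ₁) hγ₂, b + T, ?_⟩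
    · rw [Metric.mem_ball, Real.dist_eq]
      have e : (a + S) / (b + T) - τ₁ = (a + S - (b + T) * τ₁) / (b + T) := by
        field_simp
      rw [e, abs_div, abs_of_pos ht, div_lt_iff₀ ht, abs_of_nonneg (by linarith)]
      have h1 : L / r < b + T := by linarith
      rw [div_lt_iff₀ hr] at h1
      nlinarith
    · have e : γ₀ - γ₁ - γ₂ + (b + T) • (D + ((a + S) / (b + T)) • d) - y =
          (γ₀ + a • d + b • D - y) + (T • D - γ₁) + (S • d - γ₂) := by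
        rw [smul_add, smul_smul, mul_div_cancel₀ _ ht.ne']
        module
      rw [e]
      calc _ ≤ ‖γ₀ + a • d + b • D - y‖ + ‖T • D - γ₁‖ + ‖S • d - γ₂‖ := norm_add₃_le
        _ < ε / 3 + ε / 3 + ε / 3 := by gcongr
        _ = ε := by ring
  have hall := dense_iInter_of_isOpen hopen hdense
  rw [Metric.dense_iff] at hall
  obtain ⟨τ, hτ1, hτ2⟩ := hall τ₀ δ hδ
  refine ⟨τ, by simpa [Real.dist_eq] using hτ1, ?_⟩
  rw [mem_lc]
  intro ε hε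
  obtain ⟨n, hn⟩ := exists_nat_one_div_lt hε
  rw [Set.mem_iInter] at hτ2
  obtain ⟨γ, hγ, t, ht⟩ := hτ2 n
  exact ⟨γ, hγ, t, ht.trans hn⟩

end

/-- limits along ultrafilters in compact sets -/
theorem ultra_lim {α E : Type*} [TopologicalSpace E] (U : Ultrafilter α) {K : Set E}
    (hK : IsCompact K) {f : α → E} (h : ∀ᶠ a in (U : Filter α), f a ∈ K) :
    ∃ w ∈ K, Tendsto f U (𝓝 w) := by
  obtain ⟨w, hw, h2⟩ := hK.ultrafilter_le_nhds (U.map f) (le_principal_iff.2 h)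
  exact ⟨w, hw, h2⟩

/-- vectors all of whose real multiples lie in `Γ` -/
def lin (Γ : AddSubgroup (ι → ℝ)) : Submodule ℝ (ι → ℝ) where
  carrier := {v | ∀ t : ℝ, t • v ∈ Γ}
  add_mem' := by intro a b ha hb t; rw [smul_add]; exact Γ.add_mem (ha t) (hb t)
  zero_mem' := by intro t; rw [smul_zero]; exact Γ.zero_mem
  smul_mem' := by intro c x hx t; rw [smul_smul]; exact hx _

omit [Fintype ι] in
theorem mem_lin {Γ : AddSubgroup (ι → ℝ)} {v : ι → ℝ} : v ∈ lin Γ ↔ ∀ t : ℝ, t • v ∈ Γ := Iff.rfl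

omit [Fintype ι] in
theorem lin_le {Γ : AddSubgroup (ι → ℝ)} {v : ι → ℝ} (h : v ∈ lin Γ) : v ∈ Γ := by
  have := mem_lin.1 h 1
  rwa [one_smul] at this

/-- Small elements of a closed subgroup lie on lines contained in the subgroup. -/
theorem small_mem {Γ : AddSubgroup (ι → ℝ)} (hΓ : IsClosed (Γ : Set (ι → ℝ))) :
    ∀ᶠ v in 𝓝 (0 : ι → ℝ), v ∈ Γ → v ∈ lin Γ := by
  by_contra hcon
  have hf : ∃ᶠ v in 𝓝 (0 : ι → ℝ), v ∈ {v | v ∈ Γ ∧ v ∉ lin Γ} := by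
    refine (Filter.not_eventually.1 hcon).mono ?_
    intro v hv
    exact Classical.not_imp.1 hv
  obtain ⟨W, hW⟩ := (lin Γ).exists_isCompl
  set p : (ι → ℝ) →ₗ[ℝ] (ι → ℝ) := W.projection (lin Γ) hW.symm with hp
  have hp1 : ∀ v, p v ∈ W := fun v => Submodule.projection_apply_mem _ v
  have hp2 : ∀ v, v - p v ∈ lin Γ := fun v => Submodule.sub_projection_mem _ v
  have hne : (𝓝 (0 : ι → ℝ) ⊓ 𝓟 {v | v ∈ Γ ∧ v ∉ lin Γ}).NeBot :=
    Filter.frequently_mem_iff_neBot.1 hf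
  set U := Ultrafilter.of (𝓝 (0 : ι → ℝ) ⊓ 𝓟 {v | v ∈ Γ ∧ v ∉ lin Γ}) with hU
  have hle : (U : Filter (ι → ℝ)) ≤ 𝓝 (0 : ι → ℝ) ⊓ 𝓟 {v | v ∈ Γ ∧ v ∉ lin Γ} :=
    Ultrafilter.of_le _
  have hid : Tendsto (fun v : ι → ℝ => v) U (𝓝 0) := hle.trans inf_le_left
  have h1 : ∀ᶠ v in (U : Filter (ι → ℝ)), v ∈ Γ ∧ v ∉ lin Γ :=
    le_principal_iff.1 (hle.trans inf_le_right)
  have h0 : Tendsto (fun v => p v) U (𝓝 0) := by
    have := (p.continuous_of_finiteDimensional.tendsto 0).comp hid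
    rwa [map_zero] at this
  have h2 : ∀ᶠ v in (U : Filter (ι → ℝ)), p v ∈ Γ ∧ p v ≠ 0 := by
    filter_upwards [h1] with v hv
    constructor
    · have := Γ.sub_mem hv.1 (lin_le (hp2 v))
      rwa [sub_sub_cancel] at this
    · intro h3
      have := hp2 v
      rw [h3, sub_zero] at this
      exact hv.2 this
  obtain ⟨w, hw, hlim⟩ := ultra_lim U (isCompact_sphere (0 : ι → ℝ) 1)
    (f := fun v => ‖p v‖⁻¹ • p v) (by
      filter_upwards [h2] with v hv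
      rw [mem_sphere_zero_iff_norm, norm_smul, norm_inv, norm_norm,
        inv_mul_cancel₀ (norm_ne_zero_iff.2 hv.2)])
  have hwW : w ∈ W := by
    have hc : IsClosed (W : Set (ι → ℝ)) := W.closed_of_finiteDimensional
    exact hc.mem_of_tendsto hlim (Eventually.of_forall fun v => W.smul_mem _ (hp1 v))
  have hwl : w ∈ lin Γ := by
    rw [mem_lin]
    intro t
    have hs : Tendsto (fun v => (⌊t / ‖p v‖⌋ : ℝ) * ‖p v‖) U (𝓝 t) := by
      have hn : Tendsto (fun v => ‖p v‖) U (𝓝 0) := by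
        have := h0.norm
        rwa [norm_zero] at this
      rw [tendsto_iff_norm_sub_tendsto_zero]
      refine squeeze_zero' (Eventually.of_forall fun v => norm_nonneg _) ?_ hn
      filter_upwards [h2] with v hv
      have hpos : 0 < ‖p v‖ := norm_pos_iff.2 hv.2
      have e1 := Int.floor_le (t / ‖p v‖)
      have e2 := Int.lt_floor_add_one (t / ‖p v‖)
      rw [le_div_iff₀ hpos] at e1
      rw [div_lt_iff₀ hpos] at e2
      rw [Real.norm_eq_abs, abs_le]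
      constructor <;> nlinarith
    have hl := hs.smul hlim
    refine hΓ.mem_of_tendsto hl ?_
    filter_upwards [h2] with v hv
    have e : ((⌊t / ‖p v‖⌋ : ℝ) * ‖p v‖) • ‖p v‖⁻¹ • p v = ⌊t / ‖p v‖⌋ • p v := by
      rw [smul_smul, mul_assoc, mul_inv_cancel₀ (norm_ne_zero_iff.2 hv.2), mul_one,
        Int.cast_smul_eq_zsmul]
    show ((⌊t / ‖p v‖⌋ : ℝ) * ‖p v‖) • ‖p v‖⁻¹ • p v ∈ Γ
    rw [e]
    exact Γ.zsmul_mem hv.1 _
  have hz : w = 0 := by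
    have := hW.disjoint
    rw [Submodule.disjoint_def] at this
    exact this w hwl hwW
  rw [hz, mem_sphere_zero_iff_norm, norm_zero] at hw
  exact zero_ne_one hw

end Pool.Agent.Q61.Thin
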