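import Pool.Agent.Q61.Thin.Core

/-! The descent theorem for cubic functions on a closed subgroup inside the orthant. -/

set_option linter.unusedSectionVars false

namespace Pool.Agent.Q61.Thin

open Filter Topology

variable {ι : Type*} [Fintype ι] [DecidableEq ι]

/-- sum of the coordinates -/
noncomputable def κ : (ι → ℝ) →ₗ[ℝ] ℝ := ∑ i, LinearMap.proj i

theorem κ_apply (x : ι → ℝ) : κ x = ∑ i, x i := by
  simp [κ]

/-- the shear `z ↦ z + κ(z) d` -/
noncomputable def shear (d : ι → ℝ) : (ι → ℝ) →ₗ[ℝ] (ι → ℝ) := LinearMap.id + κ.smulRight d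

theorem shear_apply (d z : ι → ℝ) : shear d z = z + κ z • d := by
  simp [shear]

section step

variable {J : Finset ι} {Γ : AddSubgroup (ι → ℝ)} {F : Cub (ι → ℝ)}

/-- the unboundedness of the sheared function on a facet of the bigger group -/
theorem step_shear (hG : GG J Γ) (hn : ¬ SR J Γ F) (U : Ultrafilter (ι → ℝ))
    (hU : ∀ᶠ x in (U : Filter (ι → ℝ)), x ∈ Γ ∧ 0 ≤ x) (hb : Tendsto F.eval U atBot)
    {d : ι → ℝ} (hd1 : ‖d‖ = 1) (hd0 : 0 ≤ d) (hds : ∀ j, j ∉ J → d j = 0)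
    (hlim : Tendsto dir U (𝓝 d)) (hd3 : F.φ d d d = 0) (hd2 : F.ψ d d = 0)
    (hdz : ∀ z : ι → ℝ, (∀ j, j ∉ J → z j = 0) → F.φ d d z = 0) :
    ∃ i, 0 < d i ∧ ∀ B, ∃ e ∈ lc Γ d, e i = 0 ∧ 0 ≤ e ∧ (F.comp (shear d) 0).eval e < B := by
  have hN := tendsto_norm_of U hb
  have hpos : ∀ᶠ x in (U : Filter (ι → ℝ)), 0 < ‖x‖ := hN.eventually_gt_atTop 0
  have hdne : d ≠ 0 := by
    intro h
    rw [h, norm_zero] at hd1
    exact zero_ne_one hd1
  obtain ⟨k, hk⟩ : ∃ k, 0 < d k := by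
    by_contra hcon
    push Not at hcon
    exact hdne (funext fun j => le_antisymm (hcon j) (hd0 j))
  have hPne : (Finset.univ.filter fun i => 0 < d i).Nonempty := ⟨k, by simp [hk]⟩
  have hex : ∀ᶠ x in (U : Filter (ι → ℝ)), ∃ i, 0 < d i ∧ ∀ j, 0 < d j → x i / d i ≤ x j / d j := by
    refine Eventually.of_forall fun x => ?_
    obtain ⟨i, hi, hmin⟩ := Finset.exists_min_image _ (fun i => x i / d i) hPne
    exact ⟨i, by simpa using hi, fun j hj => hmin j (by simp [hj])⟩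
  obtain ⟨i, hi⟩ := Ultrafilter.eventually_exists_iff.1 hex
  have hdi : 0 < d i := (hi.exists).choose_spec.1
  refine ⟨i, hdi, ?_⟩
  have hAd : ∀ z : ι → ℝ, (∀ j, j ∉ J → z j = 0) → F.A d z = 0 := by
    intro z hz
    unfold Cub.A
    rw [hdz z hz, hd2]
    ring
  -- `κ (e x) ≤ x i / d i`
  have hcomp : Tendsto (fun x => dir x i / d i) U (𝓝 1) := by
    have := ((tendsto_pi_nhds.1 hlim) i).div_const (d i)
    rwa [div_self hdi.ne'] at this
  have hk0 : Tendsto (fun x => κ (dir x - (dir x i / d i) • d)) U (𝓝 0) := by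
    have h1 := hlim.sub (hcomp.smul_const d)
    rw [one_smul, sub_self] at h1
    have := tendsto_lin κ h1
    rwa [map_zero] at this
  have hkle : ∀ᶠ x in (U : Filter (ι → ℝ)), κ (x - (x i / d i) • d) ≤ x i / d i := by
    have h2 := (hcomp.sub hk0).eventually_const_lt (show (0 : ℝ) < 1 - 0 by norm_num)
    filter_upwards [h2, hpos] with x hx hp
    have e : x = ‖x‖ • dir x := by
      rw [dir, smul_smul, mul_inv_cancel₀ hp.ne', one_smul]
    have e1 : x i = ‖x‖ * dir x i := by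
      conv_lhs => rw [e]
      rw [Pi.smul_apply, smul_eq_mul]
    have e2 : x - (x i / d i) • d = ‖x‖ • (dir x - (dir x i / d i) • d) := by
      rw [e1]
      conv_lhs => rw [e]
      rw [smul_sub, smul_smul, mul_div_assoc]
      have e3 : dir (‖x‖ • dir x) = dir x := by rw [← e]
      rw [e3, ← e]
    rw [e2, map_smul, smul_eq_mul, e1, mul_div_assoc]
    exact mul_le_mul_of_nonneg_left (by linarith) hp.le
  intro B
  obtain ⟨x, hx, hxi, hxk, hxB⟩ :=
    (hU.and (hi.and (hkle.and (hb.eventually_lt_atBot B)))).exists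
  set t := x i / d i with ht
  set e := x - t • d with he
  have het : x = e + t • d := by rw [he, sub_add_cancel]
  have hel : e ∈ lc Γ d := (lc Γ d).sub_mem (le_lc Γ d hx.1) (smul_mem_lc Γ d t)
  have hei : e i = 0 := by
    simp only [he, ht, Pi.sub_apply, Pi.smul_apply, smul_eq_mul]
    field_simp
    ring
  have he0 : 0 ≤ e := by
    intro j
    simp only [he, Pi.zero_apply, Pi.sub_apply, Pi.smul_apply, smul_eq_mul]
    by_cases hj : 0 < d j
    · have := hxi.2 j hj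
      rw [le_div_iff₀ hj] at this
      linarith
    · have h5 : d j = 0 := le_antisymm (not_lt.1 hj) (hd0 j)
      have h6 := hx.2 j
      simp only [Pi.zero_apply] at h6
      rw [h5, mul_zero, sub_zero]
      exact h6
  have hes : ∀ j, j ∉ J → e j = 0 := by
    intro j hj
    simp [he, hds j hj, hG.supp x hx.1 j hj]
  refine ⟨e, hel, hei, he0, lt_of_le_of_lt ?_ hxB⟩
  rw [Cub.comp_eval, zero_add, shear_apply, F.eval_add_smul, hd3, hAd e hes]
  conv_rhs => rw [het, F.eval_add_smul, hd3, hAd e hes]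
  have hq := q_nonneg hn hd0 hds hd3 hel (fun j _ => he0 j) (hAd e hes)
  have := mul_le_mul_of_nonneg_right hxk hq
  linarith

/-- going back from the facet of the bigger group -/
theorem step_back (hG : GG J Γ) (hn : ¬ SR J Γ F)
    {d : ι → ℝ} (hd0 : 0 ≤ d) (hds : ∀ j, j ∉ J → d j = 0)
    (hd3 : F.φ d d d = 0) (hd2 : F.ψ d d = 0)
    (hdz : ∀ z : ι → ℝ, (∀ j, j ∉ J → z j = 0) → F.φ d d z = 0)
    {Γ' : AddSubgroup (ι → ℝ)} (hΓ' : Γ' ≤ lc Γ d)
    (hSR : SR J Γ' (F.comp (shear d) 0)) : False := by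
  obtain ⟨D, y, hD0, hDs, hy, hy0, hcase⟩ := hSR
  simp only [Cub.comp_φ, Cub.comp_zero_A, Cub.comp_zero_q] at hcase
  have hκ0 : 0 ≤ κ D := by
    rw [κ_apply]
    exact Finset.sum_nonneg fun i _ => hD0 i
  have hκpos : 0 < κ D := by
    refine lt_of_le_of_ne hκ0 fun h => ?_
    have hz : D = 0 := by
      rw [κ_apply, eq_comm] at h
      funext j
      exact (Finset.sum_eq_zero_iff_of_nonneg fun i _ => hD0 i).1 h j (Finset.mem_univ _)
    subst hz
    rw [map_zero] at hcase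
    unfold Cub.A Cub.q at hcase
    simp at hcase
  have hLD : shear d D = D + κ D • d := shear_apply d D
  rw [hLD] at hcase
  set τ₀ := κ D with hτ₀
  set y' := shear d y with hy'
  have hy'e : y' = y + κ y • d := shear_apply d y
  have hsuppl : ∀ z ∈ lc Γ d, ∀ j, j ∉ J → z j = 0 := fun z hz j hj =>
    lc_supp (fun x hx => hG.supp x hx j hj) (hds j hj) hz
  have hys : ∀ j, j ∉ J → y j = 0 := fun j hj =>
    lc_supp (fun x hx => hsuppl x (hΓ' hx) j hj) (hDs j hj) hy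
  have hy's : ∀ j, j ∉ J → y' j = 0 := fun j hj => by
    rw [hy'e]; simp [hys j hj, hds j hj]
  have hDt0 : ∀ τ : ℝ, 0 ≤ τ → 0 ≤ D + τ • d := fun τ hτ =>
    add_nonneg hD0 (smul_nonneg hτ hd0)
  have hDts : ∀ τ : ℝ, ∀ j, j ∉ J → (D + τ • d) j = 0 := fun τ j hj => by
    simp [hDs j hj, hds j hj]
  have hsign : ∀ τ : ℝ, 0 < τ → ∀ j, (D + τ • d) j = 0 → 0 ≤ y' j := by
    intro τ hτ j hj
    simp only [Pi.add_apply, Pi.smul_apply, smul_eq_mul] at hj
    have h1 := hD0 j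
    have h2 := hd0 j
    simp only [Pi.zero_apply] at h1 h2
    have h3 : D j = 0 := by nlinarith [mul_nonneg hτ.le h2]
    have h4 : d j = 0 := by
      rw [h3, zero_add] at hj
      exact (mul_eq_zero.1 hj).resolve_left hτ.ne'
    rw [hy'e]
    simp only [Pi.add_apply, Pi.smul_apply, smul_eq_mul, h4, mul_zero, add_zero]
    exact hy0 j h3
  -- cubic part
  have hf3 : ∀ τ : ℝ, F.φ (D + τ • d) (D + τ • d) (D + τ • d) =
      F.φ D D D + 3 * τ * F.φ D D d := by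
    intro τ
    rw [F.φ_lin, hd3, hdz D hDs]
    ring
  have hf3nn : ∀ τ : ℝ, 0 ≤ τ → 0 ≤ F.φ D D D + 3 * τ * F.φ D D d := by
    intro τ hτ
    rw [← hf3]
    exact tri_nonneg hn (hDt0 τ hτ) (hDts τ)
  have h30 : F.φ (D + τ₀ • d) (D + τ₀ • d) (D + τ₀ • d) = 0 := by
    rcases hcase with h | h | h
    · exact absurd h (not_lt.2 (tri_nonneg hn (hDt0 _ hκpos.le) (hDts _)))
    · exact h.1
    · exact h.1
  have ha := h30
  rw [hf3] at ha
  have hb1 := hf3nn 0 le_rfl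
  have hb2 := hf3nn (2 * τ₀) (by linarith)
  have hz1 : τ₀ * F.φ D D d = 0 := by nlinarith
  have hz2 : F.φ D D d = 0 := (mul_eq_zero.1 hz1).resolve_left hκpos.ne'
  have hz3 : F.φ D D D = 0 := by rw [hz2] at ha; linarith
  have hf3z : ∀ τ : ℝ, F.φ (D + τ • d) (D + τ • d) (D + τ • d) = 0 := by
    intro τ
    rw [hf3, hz2, hz3]
    ring
  -- quadratic part
  have hAz : F.A d y' = 0 := by
    unfold Cub.A
    rw [hdz y' hy's, hd2]
    ring
  have hAl : ∀ τ : ℝ, F.A (D + τ • d) y' =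
      F.A D y' + τ * (6 * F.φ D d y' + 2 * F.ψ D d) := by
    intro τ
    rw [F.A_lin, hAz]
    ring
  have hAnn : ∀ τ : ℝ, 0 < τ → 0 ≤ F.A (D + τ • d) y' := fun τ hτ =>
    A_nonneg' hG hn (hDt0 τ hτ.le) (hDts τ) (hf3z τ) hy's (hsign τ hτ)
  rcases hcase with h | h | h
  · rw [h30] at h; exact lt_irrefl _ h
  · exact absurd h.2 (not_lt.2 (hAnn τ₀ hκpos))
  · obtain ⟨-, hA0, hq0⟩ := h
    have c0 := hA0
    rw [hAl] at c0
    have c1 := hAnn (τ₀ / 2) (by linarith)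
    have c2 := hAnn (2 * τ₀) (by linarith)
    rw [hAl] at c1 c2
    have c3 : τ₀ * (6 * F.φ D d y' + 2 * F.ψ D d) = 0 := by nlinarith
    have c4 := (mul_eq_zero.1 c3).resolve_left hκpos.ne'
    have c5 : ∀ τ : ℝ, F.A (D + τ • d) y' = 0 := by
      intro τ
      rw [hAl, c4]
      rw [c4] at c0
      linarith
    have hcont : ∀ᶠ τ in 𝓝 τ₀, 0 < τ ∧ F.q (D + τ • d) y' < 0 := by
      refine (lt_mem_nhds hκpos).and ?_
      have hc : Continuous fun τ : ℝ => F.q (D + τ • d) y' := by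
        simp_rw [F.q_lin]
        fun_prop
      exact (hc.tendsto τ₀).eventually_lt_const hq0
    rw [Metric.eventually_nhds_iff] at hcont
    obtain ⟨δ, hδ, hcont⟩ := hcont
    have hgen : ∀ ε : ℝ, 0 < ε → ∃ γ ∈ Γ, ∃ a b : ℝ, ‖γ + a • d + b • D - y'‖ < ε := by
      intro ε hε
      obtain ⟨γ', hγ', b, hb⟩ := mem_lc.1 hy (ε / 2) (by linarith)
      obtain ⟨γ, hγ, a, ha'⟩ := mem_lc.1 (hΓ' hγ') (ε / 2) (by linarith)
      refine ⟨γ, hγ, a + κ y, b, ?_⟩
      have e : γ + (a + κ y) • d + b • D - y' = (γ + a • d - γ') + (γ' + b • D - y) := by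
        rw [hy'e]
        module
      rw [e]
      calc _ ≤ ‖γ + a • d - γ'‖ + ‖γ' + b • D - y‖ := norm_add_le _ _
        _ < ε / 2 + ε / 2 := by gcongr
        _ = ε := by ring
    obtain ⟨τ, hτ1, hτ2⟩ := generic hG.one hds hDs hgen τ₀ hδ
    obtain ⟨hτpos, hqneg⟩ := hcont (by rw [Real.dist_eq]; exact hτ1)
    exact hn ⟨D + τ • d, y', hDt0 τ hτpos.le, hDts τ, hτ2, hsign τ hτpos,
      Or.inr (Or.inr ⟨hf3z τ, c5 τ, hqneg⟩)⟩

end step

/-- **The descent theorem.** -/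
theorem descent (J : Finset ι) : ∀ (Γ : AddSubgroup (ι → ℝ)) (F : Cub (ι → ℝ)), GG J Γ →
    (∀ B, ∃ x ∈ Γ, 0 ≤ x ∧ F.eval x < B) → SR J Γ F := by
  induction J using Finset.strongInduction with
  | H J ih =>
  intro Γ F hG hunb
  by_contra hn
  -- facets
  have hfac : ∀ i ∈ J, ∃ B, ∀ x ∈ Γ, 0 ≤ x → x i = 0 → B ≤ F.eval x := by
    intro i hi
    by_contra hcon
    push Not at hcon
    set Γi : AddSubgroup (ι → ℝ) :=
      Γ ⊓ (LinearMap.ker (LinearMap.proj (R := ℝ) (φ := fun _ : ι => ℝ) i)).toAddSubgroup with hΓi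
    have hmem : ∀ x, x ∈ Γi ↔ x ∈ Γ ∧ x i = 0 := by
      intro x
      simp [hΓi]
    have hGi : GG (J.erase i) Γi := by
      refine ⟨?_, ?_, ?_⟩
      · have e : (Γi : Set (ι → ℝ)) = (Γ : Set (ι → ℝ)) ∩ {x | x i = 0} := by
          ext x; simp [hmem]
        rw [e]
        exact hG.closed.inter (isClosed_eq (continuous_apply i) continuous_const)
      · intro x hx j hj
        rw [hmem] at hx
        by_cases hji : j = i
        · rw [hji]; exact hx.2
        · exact hG.supp x hx.1 j fun hjJ => hj (Finset.mem_erase.2 ⟨hji, hjJ⟩)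
      · intro j hj
        rw [hmem]
        exact ⟨hG.one j (Finset.mem_of_mem_erase hj), by
          rw [Pi.single_apply, if_neg (Finset.ne_of_mem_erase hj).symm]⟩
    refine hn ((ih (J.erase i) (Finset.erase_ssubset hi) Γi F hGi ?_).mono
      (Finset.erase_subset i J) inf_le_left)
    intro B
    obtain ⟨x, hx, hx0, hxi, hxB⟩ := hcon B
    exact ⟨x, (hmem x).2 ⟨hx, hxi⟩, hx0, hxB⟩
  obtain ⟨B, hB⟩ : ∃ B, ∀ i ∈ J, ∀ x ∈ Γ, 0 ≤ x → x i = 0 → B ≤ F.eval x := by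
    choose! b hb using hfac
    obtain ⟨B, hB⟩ := (J.finite_toSet.image b).bddBelow
    exact ⟨B, fun i hi x hx hx0 hxi =>
      (hB (Set.mem_image_of_mem b hi)).trans (hb i hi x hx hx0 hxi)⟩
  -- the ultrafilter
  have hne : (comap F.eval atBot ⊓ 𝓟 {x | x ∈ Γ ∧ 0 ≤ x}).NeBot := by
    rw [Filter.inf_principal_neBot_iff]
    intro s hs
    obtain ⟨t, ht, hts⟩ := hs
    obtain ⟨a, ha⟩ := Filter.mem_atBot_sets.1 ht
    obtain ⟨x, hx, hx0, hxB⟩ := hunb a
    exact ⟨x, hts (ha _ hxB.le), hx, hx0⟩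
  set U := Ultrafilter.of (comap F.eval atBot ⊓ 𝓟 {x | x ∈ Γ ∧ 0 ≤ x}) with hUdef
  have hle : (U : Filter (ι → ℝ)) ≤ comap F.eval atBot ⊓ 𝓟 {x | x ∈ Γ ∧ 0 ≤ x} :=
    Ultrafilter.of_le _
  have hU : ∀ᶠ x in (U : Filter (ι → ℝ)), x ∈ Γ ∧ 0 ≤ x :=
    le_principal_iff.1 (hle.trans inf_le_right)
  have hb : Tendsto F.eval U atBot := tendsto_iff_comap.2 (hle.trans inf_le_left)
  obtain ⟨d, hd1, hd0, hds, hlim, hd3, hd2, hl3⟩ := step_limit hG hn U hU hb
  have hl := step_compare hG hn U hU hb hd0 hds hlim hd3 hl3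
  have hdz : ∀ z : ι → ℝ, (∀ j, j ∉ J → z j = 0) → F.φ d d z = 0 := by
    intro z hz
    rw [lin_sum (F.φ d d) z]
    refine Finset.sum_eq_zero fun j _ => ?_
    by_cases hj : j ∈ J
    · rw [step_facet hG hn U hU hb hB hd0 hds hlim hd3 hl hj, mul_zero]
    · rw [hz j hj, zero_mul]
  obtain ⟨i, hdi, hunb'⟩ := step_shear hG hn U hU hb hd1 hd0 hds hlim hd3 hd2 hdz
  have hiJ : i ∈ J := by
    by_contra h
    rw [hds i h] at hdi
    exact lt_irrefl _ hdi
  set Γi : AddSubgroup (ι → ℝ) :=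
    lc Γ d ⊓ (LinearMap.ker (LinearMap.proj (R := ℝ) (φ := fun _ : ι => ℝ) i)).toAddSubgroup with hΓi
  have hmem : ∀ x, x ∈ Γi ↔ x ∈ lc Γ d ∧ x i = 0 := by
    intro x
    simp [hΓi]
  have hGi : GG (J.erase i) Γi := by
    refine ⟨?_, ?_, ?_⟩
    · have e : (Γi : Set (ι → ℝ)) = (lc Γ d : Set (ι → ℝ)) ∩ {x | x i = 0} := by
        ext x; simp [hmem]
      rw [e]
      exact (isClosed_lc Γ d).inter (isClosed_eq (continuous_apply i) continuous_const)
    · intro x hx j hj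
      rw [hmem] at hx
      by_cases hji : j = i
      · rw [hji]; exact hx.2
      · have hj' : j ∉ J := fun hjJ => hj (Finset.mem_erase.2 ⟨hji, hjJ⟩)
        exact lc_supp (fun x hx => hG.supp x hx j hj') (hds j hj') hx.1
    · intro j hj
      rw [hmem]
      exact ⟨le_lc Γ d (hG.one j (Finset.mem_of_mem_erase hj)), by
        rw [Pi.single_apply, if_neg (Finset.ne_of_mem_erase hj).symm]⟩
  have hSR := ih (J.erase i) (Finset.erase_ssubset hiJ) Γi (F.comp (shear d) 0) hGi (by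
    intro B
    obtain ⟨e, he, hei, he0, heB⟩ := hunb' B
    exact ⟨e, (hmem e).2 ⟨he, hei⟩, he0, heB⟩)
  exact step_back hG hn hd0 hds hd3 hd2 hdz (Γ' := Γi) inf_le_left
    (hSR.mono (Finset.erase_subset i J) le_rfl)

end Pool.Agent.Q61.Thin
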