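import Pool.Agent.Q61.Thin.Conv

/-! Polynomials of degree at most three are cubic functions. -/

namespace Pool.Agent.Q61.Thin

open Filter Topology

section

variable {V : Type*} [AddCommGroup V] [Module ℝ V]

/-- being given by a `Cub` -/
def IsCub (g : V → ℝ) : Prop := ∃ F : Cub V, ∀ x, F.eval x = g x

theorem IsCub.add {g h : V → ℝ} (hg : IsCub g) (hh : IsCub h) : IsCub (fun x => g x + h x) := by
  obtain ⟨F, hF⟩ := hg
  obtain ⟨G, hG⟩ := hh
  refine ⟨⟨F.φ + G.φ, F.ψ + G.ψ, F.l + G.l, F.c + G.c, ?_, ?_, ?_⟩, ?_⟩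
  · intro x y z; simp [F.s12 x y z, G.s12 x y z]
  · intro x y z; simp [F.s23 x y z, G.s23 x y z]
  · intro x y; simp [F.s x y, G.s x y]
  · intro x
    beta_reduce
    rw [← hF, ← hG]
    simp only [Cub.eval, LinearMap.add_apply]
    ring

theorem IsCub.const_mul {g : V → ℝ} (hg : IsCub g) (r : ℝ) : IsCub (fun x => r * g x) := by
  obtain ⟨F, hF⟩ := hg
  refine ⟨⟨r • F.φ, r • F.ψ, r • F.l, r * F.c, ?_, ?_, ?_⟩, ?_⟩
  · intro x y z; simp [F.s12 x y z]
  · intro x y z; simp [F.s23 x y z]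
  · intro x y; simp [F.s x y]
  · intro x
    beta_reduce
    rw [← hF]
    simp only [Cub.eval, LinearMap.smul_apply, smul_eq_mul]
    ring

theorem IsCub.const (r : ℝ) : IsCub (fun _ : V => r) :=
  ⟨⟨0, 0, 0, r, by simp, by simp, by simp⟩, by intro x; simp [Cub.eval]⟩

theorem IsCub.lin (a : V →ₗ[ℝ] ℝ) : IsCub (fun x : V => a x) :=
  ⟨⟨0, 0, a, 0, by simp, by simp, by simp⟩, by intro x; simp [Cub.eval]⟩

theorem IsCub.lin2 (a b : V →ₗ[ℝ] ℝ) : IsCub (fun x : V => a x * b x) := by
  refine ⟨⟨0, (1 / 2 : ℝ) • (a.smulRight b + b.smulRight a), 0, 0, by simp, by simp, ?_⟩, ?_⟩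
  · intro x y
    simp only [LinearMap.smul_apply, LinearMap.add_apply, LinearMap.smulRight_apply, smul_eq_mul]
    ring
  · intro x
    simp only [Cub.eval, LinearMap.smul_apply, LinearMap.add_apply, LinearMap.smulRight_apply,
      smul_eq_mul, LinearMap.zero_apply]
    ring

theorem IsCub.lin3 (a b c : V →ₗ[ℝ] ℝ) : IsCub (fun x : V => a x * b x * c x) := by
  refine ⟨⟨(1 / 6 : ℝ) • (a.smulRight (b.smulRight c) + a.smulRight (c.smulRight b) +
    b.smulRight (a.smulRight c) + b.smulRight (c.smulRight a) +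
    c.smulRight (a.smulRight b) + c.smulRight (b.smulRight a)), 0, 0, 0, ?_, ?_, by simp⟩, ?_⟩
  · intro x y z
    simp only [LinearMap.smul_apply, LinearMap.add_apply, LinearMap.smulRight_apply, smul_eq_mul]
    ring
  · intro x y z
    simp only [LinearMap.smul_apply, LinearMap.add_apply, LinearMap.smulRight_apply, smul_eq_mul]
    ring
  · intro x
    simp only [Cub.eval, LinearMap.smul_apply, LinearMap.add_apply, LinearMap.smulRight_apply,
      smul_eq_mul, LinearMap.zero_apply]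
    ring

theorem IsCub.sum {α : Type*} (s : Finset α) (g : α → V → ℝ) (h : ∀ i ∈ s, IsCub (g i)) :
    IsCub (fun x => ∑ i ∈ s, g i x) := by
  classical
  induction s using Finset.induction_on with
  | empty => simpa using IsCub.const (V := V) 0
  | insert a s ha ih =>
    have h1 := (h a (Finset.mem_insert_self a s)).add
      (ih fun i hi => h i (Finset.mem_insert_of_mem hi))
    refine (funext fun x => ?_ : (fun x => g a x + ∑ i ∈ s, g i x) =
      fun x => ∑ i ∈ insert a s, g i x) ▸ h1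
    rw [Finset.sum_insert ha]

end

theorem isCub_multiset {ι : Type*} (t : Multiset ι) (ht : t.card ≤ 3) :
    IsCub (fun x : ι → ℝ => (t.map x).prod) := by
  have hc : t.card = 0 ∨ t.card = 1 ∨ t.card = 2 ∨ t.card = 3 := by omega
  rcases hc with h | h | h | h
  · rw [Multiset.card_eq_zero] at h
    subst h
    simpa using IsCub.const (V := ι → ℝ) 1
  · obtain ⟨a, rfl⟩ := Multiset.card_eq_one.1 h
    simpa using IsCub.lin (LinearMap.proj (R := ℝ) (φ := fun _ : ι => ℝ) a)
  · obtain ⟨a, b, rfl⟩ := Multiset.card_eq_two.1 h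
    simpa using IsCub.lin2 (LinearMap.proj (R := ℝ) (φ := fun _ : ι => ℝ) a)
      (LinearMap.proj (R := ℝ) (φ := fun _ : ι => ℝ) b)
  · obtain ⟨a, b, c, rfl⟩ := Multiset.card_eq_three.1 h
    simpa [mul_assoc] using IsCub.lin3 (LinearMap.proj (R := ℝ) (φ := fun _ : ι => ℝ) a)
      (LinearMap.proj (R := ℝ) (φ := fun _ : ι => ℝ) b)
      (LinearMap.proj (R := ℝ) (φ := fun _ : ι => ℝ) c)

theorem isCub_poly {ι : Type*} (p : MvPolynomial ι ℝ) (hp : p.totalDegree ≤ 3) :
    IsCub (fun x : ι → ℝ => MvPolynomial.eval x p) := by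
  have h := IsCub.sum p.support
    (fun m (x : ι → ℝ) => p.coeff m * ((Finsupp.toMultiset m).map x).prod) (by
      intro m hm
      refine IsCub.const_mul (isCub_multiset _ ?_) _
      have := MvPolynomial.le_totalDegree hm
      rw [Finsupp.card_toMultiset]
      exact this.trans hp)
  obtain ⟨F, hF⟩ := h
  refine ⟨F, fun x => ?_⟩
  rw [hF]
  beta_reduce
  rw [MvPolynomial.eval_eq]
  refine Finset.sum_congr rfl fun m _ => ?_
  congr 1
  rw [Finsupp.toMultiset_map, Finsupp.prod_toMultiset, Finsupp.prod_mapDomain_index]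
  · rfl
  · intro b; simp
  · intro b m n; rw [pow_add]

end Pool.Agent.Q61.Thin
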