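import Pool.Agent.Q61.Thin.Poly

/-! Integer points of rational polyhedra: a finite union of linear sets. -/

namespace Pool.Agent.Q61.Thin

open Filter Topology Pointwise

/-- a common denominator -/
theorem common_den (s : Finset ℚ) : ∃ K : ℕ, 0 < K ∧ ∀ q ∈ s, ∃ k : ℤ, (K : ℚ) * q = k := by
  classical
  induction s using Finset.induction_on with
  | empty => exact ⟨1, one_pos, by simp⟩
  | insert a s ha ih =>
    obtain ⟨K, hK, h⟩ := ih
    refine ⟨K * a.den, Nat.mul_pos hK a.den_pos, ?_⟩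
    intro q hq
    rcases Finset.mem_insert.1 hq with rfl | hq
    · refine ⟨K * q.num, ?_⟩
      push_cast
      rw [mul_assoc, Rat.den_mul_eq_num]
    · obtain ⟨k, hk⟩ := h q hq
      refine ⟨a.den * k, ?_⟩
      push_cast
      rw [← hk]
      ring

/-- the slack map -/
def slack {m n : ℕ} (A : Matrix (Fin m) (Fin n) ℤ) :
    ((Fin n → ℤ) × (Fin m → ℕ)) →+ (Fin m → ℤ) where
  toFun p := fun i => ∑ j, A i j * p.1 j + (p.2 i : ℤ)
  map_zero' := by ext i; simp
  map_add' := by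
    intro p q
    ext i
    simp only [Prod.fst_add, Prod.snd_add, Pi.add_apply, Nat.cast_add, mul_add,
      Finset.sum_add_distrib]
    ring

theorem semi_int {m n : ℕ} (A : Matrix (Fin m) (Fin n) ℤ) (b : Fin m → ℤ) :
    IsSemilinearSet {z : Fin n → ℤ | ∀ i, ∑ j, A i j * z j ≤ b i} := by
  have : AddMonoid.FG (Fin n → ℤ) := by infer_instance
  have : AddMonoid.FG ((Fin n → ℤ) × (Fin m → ℕ)) := by infer_instance
  have h := isSemilinearSet_setOfPred_eq (0 : Fin m → ℤ) b (slack A)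
    (0 : ((Fin n → ℤ) × (Fin m → ℕ)) →+ (Fin m → ℤ))
  have h2 := h.image (AddMonoidHom.fst (Fin n → ℤ) (Fin m → ℕ))
  have e : {z : Fin n → ℤ | ∀ i, ∑ j, A i j * z j ≤ b i} =
      (AddMonoidHom.fst (Fin n → ℤ) (Fin m → ℕ)) '' {x | 0 + (slack A) x =
        b + (0 : ((Fin n → ℤ) × (Fin m → ℕ)) →+ (Fin m → ℤ)) x} := by
    ext z
    constructor
    · intro hz
      refine ⟨(z, fun i => (b i - ∑ j, A i j * z j).toNat), ?_, rfl⟩
      show 0 + (slack A) _ = b + 0
      rw [zero_add, add_zero]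
      funext i
      have := Int.toNat_of_nonneg (sub_nonneg.2 (hz i))
      show ∑ j, A i j * z j + (((b i - ∑ j, A i j * z j).toNat : ℕ) : ℤ) = b i
      rw [this]
      ring
    · rintro ⟨⟨z', s⟩, hs, rfl⟩ i
      have h3 : 0 + (slack A) (z', s) = b + 0 := hs
      rw [zero_add, add_zero] at h3
      have h4 := congrFun h3 i
      have h5 : ∑ j, A i j * z' j + (s i : ℤ) = b i := h4
      show ∑ j, A i j * z' j ≤ b i
      have : (0 : ℤ) ≤ s i := by positivity
      linarith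
  rw [e]
  exact h2

theorem semi_rat {m n : ℕ} (A : Matrix (Fin m) (Fin n) ℚ) (b : Fin m → ℚ) :
    IsSemilinearSet {z : Fin n → ℤ | ∀ i, ∑ j, A i j * (z j : ℚ) ≤ b i} := by
  classical
  obtain ⟨K, hK, h⟩ := common_den
    ((Finset.univ.image fun p : Fin m × Fin n => A p.1 p.2) ∪ Finset.univ.image b)
  have hA : ∀ i j, ∃ k : ℤ, (K : ℚ) * A i j = k := fun i j =>
    h _ (Finset.mem_union_left _ (Finset.mem_image.2 ⟨(i, j), Finset.mem_univ _, rfl⟩))
  have hb : ∀ i, ∃ k : ℤ, (K : ℚ) * b i = k := fun i =>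
    h _ (Finset.mem_union_right _ (Finset.mem_image.2 ⟨i, Finset.mem_univ _, rfl⟩))
  choose A' hA' using hA
  choose b' hb' using hb
  have h2 := semi_int (Matrix.of A') b'
  have e : {z : Fin n → ℤ | ∀ i, ∑ j, A i j * (z j : ℚ) ≤ b i} =
      {z : Fin n → ℤ | ∀ i, ∑ j, (Matrix.of A') i j * z j ≤ b' i} := by
    ext z
    refine forall_congr' fun i => ?_
    have hKq : (0 : ℚ) < K := by exact_mod_cast hK
    rw [← mul_le_mul_iff_of_pos_left hKq, hb', Finset.mul_sum]
    have e2 : ∑ j, (K : ℚ) * (A i j * (z j : ℚ)) = ((∑ j, (Matrix.of A') i j * z j : ℤ) : ℚ) := by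
      push_cast
      refine Finset.sum_congr rfl fun j _ => ?_
      rw [← mul_assoc, hA']
      rfl
    rw [e2]
    exact Int.cast_le
  rw [e]
  exact h2

end Pool.Agent.Q61.Thin
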